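import Pool.Agent.Lib.MP_e59edf_an.Words

set_option autoImplicit false

/-! Identities between the permutations of infinite words. -/

namespace E59

open Equiv

variable {A : Type} {E I : A → Prop} [DecidablePred E] [DecidablePred I]

theorem T_comp_eq (F G : A → Prop) [DecidablePred F] [DecidablePred G] (r : Perm A)
    (hr : ∀ x, F (r⁻¹ x) ↔ G x) (g : Perm (ℕ → A)) :
    R r * T F g * (R r)⁻¹ = T G g := by
  rw [T_apply, R_mul_D_mul_R_inv, T_apply]
  congr 1
  funext x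
  simp only [hr]

/-- The copy of `R (h1 h2 h1⁻¹ h2⁻¹)` on words starting in `I` is a commutator. -/
theorem T_comm (hEI : ∀ x, E x → ¬ I x) (σ : Perm A)
    (hσE : ∀ x, E x → ¬ E (σ⁻¹ x)) (hσEI : ∀ x, I x → ¬ E (σ⁻¹ x))
    (hσI : ∀ x, I (σ⁻¹ x) ↔ I x) (h1 h2 : Perm A) :
    b E I h1 * (R σ * b E I h2 * (R σ)⁻¹) * (b E I h1)⁻¹ * (R σ * b E I h2 * (R σ)⁻¹)⁻¹ =
      T I (R (h1 * h2 * h1⁻¹ * h2⁻¹)) := by
  have e1 : R σ * b E I h2 * (R σ)⁻¹ = D (fun x => bs E I h2 (σ⁻¹ x)) := by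
    rw [b_eq, R_mul_D_mul_R_inv]
  rw [e1, b_eq, T_apply, ← map_inv, ← map_inv, ← map_mul, ← map_mul, ← map_mul]
  congr 1
  funext x
  simp only [Pi.mul_apply, Pi.inv_apply]
  by_cases hE : E x
  · have h3 : bs E I h2 (σ⁻¹ x) = 1 := by
      unfold bs
      rw [if_neg (hσE x hE), if_neg]
      rw [hσI]
      exact hEI x hE
    rw [h3, if_neg (hEI x hE)]
    simp
  · by_cases hI : I x
    · have h3 : bs E I h2 (σ⁻¹ x) = R h2 := by
        unfold bs
        rw [if_neg (hσEI x hI), if_pos]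
        rw [hσI]
        exact hI
      have h4 : bs E I h1 x = R h1 := by
        unfold bs
        rw [if_neg hE, if_pos hI]
      rw [h3, h4, if_pos hI]
      simp
    · have h4 : bs E I h1 x = 1 := by
        unfold bs
        rw [if_neg hE, if_neg hI]
      rw [h4, if_neg hI]
      simp

theorem T_b (hEI : ∀ x, E x → ¬ I x) (h : Perm A) :
    T E (b E I h) = b E I h * (T I (R h))⁻¹ := by
  conv_rhs => rw [b_eq, T_apply, ← map_inv, ← map_mul]
  rw [T_apply]
  congr 1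
  funext x
  simp only [Pi.mul_apply, Pi.inv_apply, bs]
  by_cases hE : E x
  · simp [hE, hEI x hE]
  · by_cases hI : I x
    · simp [hE, hI]
    · simp [hE, hI]

variable {κ : Perm A} (hκE : ∀ x, E (κ x) ↔ E x) (hκ2 : ∀ x, κ (κ x) = x)

include hκ2 in
theorem kk_one : κ * κ = 1 := by
  ext x
  simp [hκ2]

include hκ2 in
theorem k_inv : κ⁻¹ = κ := by
  rw [inv_eq_iff_mul_eq_one]
  exact kk_one hκ2

theorem T_c : T E (c hκE hκ2) = R κ * c hκE hκ2 := by
  have h := c_eq hκE hκ2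
  have h2 : R κ * c hκE hκ2 = R κ * (R κ * T E (c hκE hκ2)) := by
    rw [← h]
  rw [h2, ← mul_assoc, ← map_mul, kk_one hκ2, map_one, one_mul]

/-- `R r` commutes with copies on an `r`-invariant set. -/
theorem R_T_comm (F : A → Prop) [DecidablePred F] (r : Perm A) (hr : ∀ x, F (r x) ↔ F x)
    (g : Perm (ℕ → A)) : T F g * R r = R r * T F g := by
  rw [T_apply, D_mul_R]
  congr 2
  funext x
  simp only [hr]

theorem R_kappa (τ : Perm A) (hτE : ∀ x, E (τ x) ↔ E x) (hκτ : τ * κ * τ * κ * τ = κ) :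
    R τ * c hκE hκ2 * R τ * c hκE hκ2 * R τ = R κ := by
  have h := c_eq hκE hκ2
  have hT2 : T E (c hκE hκ2) * T E (c hκE hκ2) = 1 := by
    rw [← map_mul, c_mul_c, map_one]
  calc R τ * c hκE hκ2 * R τ * c hκE hκ2 * R τ
      = R τ * (R κ * T E (c hκE hκ2)) * R τ * (R κ * T E (c hκE hκ2)) * R τ := by
        rw [← h]
    _ = R τ * R κ * (T E (c hκE hκ2) * R τ) * R κ * (T E (c hκE hκ2) * R τ) := by
        simp only [mul_assoc]
    _ = R τ * R κ * (R τ * T E (c hκE hκ2)) * R κ * (R τ * T E (c hκE hκ2)) := by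
        rw [R_T_comm E τ hτE]
    _ = R τ * R κ * R τ * (T E (c hκE hκ2) * R κ) * R τ * T E (c hκE hκ2) := by
        simp only [mul_assoc]
    _ = R τ * R κ * R τ * (R κ * T E (c hκE hκ2)) * R τ * T E (c hκE hκ2) := by
        rw [R_T_comm E κ hκE]
    _ = R τ * R κ * R τ * R κ * (T E (c hκE hκ2) * R τ) * T E (c hκE hκ2) := by
        simp only [mul_assoc]
    _ = R τ * R κ * R τ * R κ * (R τ * T E (c hκE hκ2)) * T E (c hκE hκ2) := by
        rw [R_T_comm E τ hτE]
    _ = R τ * R κ * R τ * R κ * R τ * (T E (c hκE hκ2) * T E (c hκE hκ2)) := by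
        simp only [mul_assoc]
    _ = R κ := by
        rw [hT2, mul_one, ← map_mul, ← map_mul, ← map_mul, ← map_mul, hκτ]

theorem T_R_kappa (τ : Perm A) (hτE : ∀ x, E (τ x) ↔ E x) (hκτ : τ * κ * τ * κ * τ = κ) :
    T E (R κ) = T E (R τ) * T E (c hκE hκ2) * T E (R τ) * T E (c hκE hκ2) * T E (R τ) := by
  rw [← R_kappa hκE hκ2 τ hτE hκτ]
  simp only [map_mul]

/-- `c` and `b h` commute. -/
theorem cfun_bfun (hκE : ∀ x, E (κ x) ↔ E x) (hκI : ∀ x, I (κ x) ↔ I x) (h : Perm A)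
    (k : ℕ) : ∀ u : ℕ → A,
    cfun E κ (bfun E I h u) k = bfun E I h (cfun E κ u) k := by
  induction k with
  | zero => intro u; rfl
  | succ k ih =>
    intro u
    by_cases h1 : E (u 0)
    · rw [cfun_E h1, bfun_E h h1, cfun_E (u := cns _ _) (by simpa using h1),
        bfun_E (u := cns _ _) h (by simpa [hκE] using h1)]
      exact ih (tl u)
    · by_cases h2 : I (u 0)
      · rw [cfun_N h1, bfun_I h h1 h2, cfun_N (u := cns _ _) (by simpa using h1),
          bfun_I (u := cns _ _) h (by simpa [hκE] using h1) (by simpa [hκI] using h2)]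
        rfl
      · rw [cfun_N h1, bfun_N h h1 h2, cfun_N h1,
          bfun_N (u := cns _ _) h (by simpa [hκE] using h1) (by simpa [hκI] using h2)]

theorem c_b_comm (hκI : ∀ x, I (κ x) ↔ I x) (h : Perm A) :
    c hκE hκ2 * b E I h = b E I h * c hκE hκ2 := by
  ext u : 1
  funext k
  exact cfun_bfun hκE hκI h k u

/-! Powers of `R f * D s`. -/

/-- Iterated sections. -/
def Sec (f : Perm A) (s : A → Perm (ℕ → A)) : ℕ → A → Perm (ℕ → A)
  | 0, _ => 1
  | m + 1, x => s ((f ^ m) x) * Sec f s m x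

theorem pow_RD (f : Perm A) (s : A → Perm (ℕ → A)) (m : ℕ) :
    (R f * D s) ^ m = R (f ^ m) * D (Sec f s m) := by
  induction m with
  | zero =>
    have : Sec f s 0 = 1 := rfl
    simp [this]
  | succ m ih =>
    rw [pow_succ', ih]
    have h1 : R f * D s * (R (f ^ m) * D (Sec f s m)) =
        R f * (D s * R (f ^ m)) * D (Sec f s m) := by
      simp only [mul_assoc]
    rw [h1, D_mul_R, ← mul_assoc, ← map_mul, mul_assoc, ← map_mul, ← pow_succ']
    rfl

theorem Sec_add (f : Perm A) (s : A → Perm (ℕ → A)) (m n : ℕ) (x : A) :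
    Sec f s (m + n) x = Sec f s m ((f ^ n) x) * Sec f s n x := by
  induction m with
  | zero => simp [Sec]
  | succ m ih =>
    have e : m + 1 + n = (m + n) + 1 := by omega
    rw [e]
    simp only [Sec]
    rw [ih, pow_add, mul_assoc, Perm.mul_apply]

theorem Sec_cycle (f : Perm A) (s : A → Perm (ℕ → A)) (M : ℕ) (q : ℕ → A)
    (P : ℕ → Perm (ℕ → A)) (hq : ∀ t, t < M → f (q t) = q (t + 1))
    (hP : ∀ t, t < M → s (q t) * P t = P (t + 1)) (m : ℕ) :
    ∀ t, t + m ≤ M → (f ^ m) (q t) = q (t + m) ∧ Sec f s m (q t) = P (t + m) * (P t)⁻¹ := by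
  induction m with
  | zero => intro t _; simp [Sec]
  | succ m ih =>
    intro t ht
    obtain ⟨h1, h2⟩ := ih t (by omega)
    constructor
    · rw [pow_succ', Perm.mul_apply, h1, hq _ (by omega)]
      rfl
    · simp only [Sec]
      rw [h1, h2, ← mul_assoc, hP _ (by omega)]
      rfl

theorem Sec_full (f : Perm A) (s : A → Perm (ℕ → A)) (M : ℕ) (q : ℕ → A)
    (P : ℕ → Perm (ℕ → A)) (hq : ∀ t, t < M → f (q t) = q (t + 1))
    (hP : ∀ t, t < M → s (q t) * P t = P (t + 1)) (hM : q M = q 0) (hP0 : P 0 = 1)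
    (t : ℕ) (ht : t ≤ M) :
    (f ^ M) (q t) = q t ∧ Sec f s M (q t) = P t * P M * (P t)⁻¹ := by
  obtain ⟨n, rfl⟩ := Nat.exists_eq_add_of_le ht
  obtain ⟨h1, h2⟩ := Sec_cycle f s (t + n) q P hq hP n t le_rfl
  obtain ⟨h3, h4⟩ := Sec_cycle f s (t + n) q P hq hP t 0 (by omega)
  constructor
  · rw [pow_add, Perm.mul_apply, h1, hM, h3]
    simp
  · rw [Sec_add, h1, hM, h2, h4, hP0]
    simp [mul_assoc]

theorem Sec_two (f : Perm A) (s : A → Perm (ℕ → A)) (x : A) (hx : f (f x) = x)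
    (hs : s (f x) * s x = 1) (m : ℕ) :
    (f ^ (2 * m)) x = x ∧ Sec f s (2 * m) x = 1 := by
  induction m with
  | zero => simp [Sec]
  | succ m ih =>
    obtain ⟨h1, h2⟩ := ih
    have e : 2 * (m + 1) = 2 + 2 * m := by ring
    have h5 : (f ^ 2) x = x := by
      rw [pow_two, Perm.mul_apply, hx]
    constructor
    · rw [e, pow_add, Perm.mul_apply, h1, h5]
    · rw [e, Sec_add, h1, h2, mul_one]
      simp only [Sec, pow_one, pow_zero, Perm.one_apply, mul_one]
      exact hs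

end E59
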