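import Mathlib

set_option autoImplicit false

/-! Word length bookkeeping in a group. -/

namespace E59

variable {G : Type} [Group G]

/-- `x` is a product of at most `n` elements of `S`. -/
def Wd (S : Set G) (n : ℕ) (x : G) : Prop :=
  ∃ l : List G, l.length ≤ n ∧ (∀ s ∈ l, s ∈ S) ∧ l.prod = x

theorem Wd.mono {S : Set G} {m n : ℕ} {x : G} (h : Wd S m x) (hmn : m ≤ n) : Wd S n x := by
  obtain ⟨l, h1, h2, h3⟩ := h
  exact ⟨l, h1.trans hmn, h2, h3⟩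

theorem Wd.one (S : Set G) : Wd S 0 (1 : G) := ⟨[], le_rfl, by simp, by simp⟩

theorem Wd.of_mem {S : Set G} {x : G} (h : x ∈ S) : Wd S 1 x :=
  ⟨[x], le_rfl, by simpa using h, by simp⟩

theorem Wd.mul {S : Set G} {m n : ℕ} {x y : G} (hx : Wd S m x) (hy : Wd S n y) :
    Wd S (m + n) (x * y) := by
  obtain ⟨l, h1, h2, h3⟩ := hx
  obtain ⟨l', h1', h2', h3'⟩ := hy
  refine ⟨l ++ l', by simp; omega, ?_, by simp [h3, h3']⟩
  intro s hs
  rcases List.mem_append.1 hs with h | h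
  · exact h2 s h
  · exact h2' s h

theorem Wd.inv {S : Set G} (hS : ∀ s ∈ S, s⁻¹ ∈ S) {n : ℕ} {x : G} (hx : Wd S n x) :
    Wd S n x⁻¹ := by
  obtain ⟨l, h1, h2, h3⟩ := hx
  refine ⟨(l.map (fun s => s⁻¹)).reverse, by simpa using h1, ?_, ?_⟩
  · intro s hs
    rw [List.mem_reverse, List.mem_map] at hs
    obtain ⟨a, ha, rfl⟩ := hs
    exact hS a (h2 a ha)
  · rw [← h3, List.prod_inv_reverse]

theorem Wd.pow {S : Set G} {n : ℕ} {x : G} (hx : Wd S n x) (k : ℕ) :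
    Wd S (k * n) (x ^ k) := by
  induction k with
  | zero => simpa using Wd.one S
  | succ k ih =>
    rw [pow_succ, Nat.succ_mul]
    exact ih.mul hx

theorem Wd.map {S : Set G} (T : G →* G) {C : ℕ} (hT : ∀ s ∈ S, Wd S C (T s)) {n : ℕ} {x : G}
    (hx : Wd S n x) : Wd S (C * n) (T x) := by
  obtain ⟨l, h1, h2, h3⟩ := hx
  have key : ∀ l : List G, (∀ s ∈ l, s ∈ S) → Wd S (C * l.length) (T l.prod) := by
    intro l
    induction l with
    | nil => intro _; simpa using Wd.one S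
    | cons a l ih =>
      intro h
      have ha := hT a (h a (by simp))
      have hl := ih (fun s hs => h s (by simp [hs]))
      have := ha.mul hl
      rw [List.prod_cons, map_mul]
      refine this.mono ?_
      rw [List.length_cons]
      ring_nf
      omega
  rw [← h3]
  exact (key l h2).mono (Nat.mul_le_mul_left C h1)

/-- Length bound along powers of `M`. -/
theorem Wd.powers {S : Set G} (hS : ∀ s ∈ S, s⁻¹ ∈ S) (T : G →* G) {C : ℕ} (hC : 1 ≤ C)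
    (hT : ∀ s ∈ S, Wd S C (T s)) {g : G} {M V l : ℕ} (hg : Wd S l g)
    (v1 v2 v3 v4 v5 v6 : G) (h1 : Wd S V v1) (h2 : Wd S V v2) (h3 : Wd S V v3)
    (h4 : Wd S V v4) (h5 : Wd S V v5) (h6 : Wd S V v6)
    (hM : ∀ n, g ^ (M * n) = (v1 * T (g ^ n) * v1⁻¹) * (v2 * T (g ^ n) * v2⁻¹) *
      (v3 * T (g ^ n) * v3⁻¹) * (v4 * T (g ^ n) * v4⁻¹) * (v5 * T (g ^ n) * v5⁻¹) *
      (v6 * T (g ^ n) * v6⁻¹)) (j : ℕ) :
    ∃ a, a + 12 * V ≤ (l + 12 * V) * (6 * C) ^ j ∧ Wd S a (g ^ (M ^ j)) := by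
  induction j with
  | zero => exact ⟨l, by simp, by simpa using hg⟩
  | succ j ih =>
    obtain ⟨a, ha, hw⟩ := ih
    refine ⟨6 * (C * a + 2 * V), ?_, ?_⟩
    · have : 6 * (C * a + 2 * V) + 12 * V ≤ (6 * C) * (a + 12 * V) := by nlinarith
      calc 6 * (C * a + 2 * V) + 12 * V ≤ (6 * C) * (a + 12 * V) := this
        _ ≤ (6 * C) * ((l + 12 * V) * (6 * C) ^ j) := Nat.mul_le_mul_left _ ha
        _ = (l + 12 * V) * (6 * C) ^ (j + 1) := by ring
    · have e : M ^ (j + 1) = M * M ^ j := by ring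
      rw [e, hM]
      have hTw := hw.map T hT
      have p : ∀ v : G, Wd S V v → Wd S (V + C * a + V) (v * T (g ^ M ^ j) * v⁻¹) :=
        fun v hv => (hv.mul hTw).mul (hv.inv hS)
      refine ((((((p v1 h1).mul (p v2 h2)).mul (p v3 h3)).mul (p v4 h4)).mul (p v5 h5)).mul
        (p v6 h6)).mono ?_
      omega

/-- From bounds along powers of `M` to sublinear growth. -/
theorem sublinear {S : Set G} {g : G} {M K B : ℕ} (hB : B < M)
    (h : ∀ j, Wd S (K * B ^ j) (g ^ (M ^ j))) (ε : ℝ) (hε : 0 < ε) :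
    ∃ N : ℕ, ∀ n : ℕ, N ≤ n → ∃ l : List G, (l.length : ℝ) ≤ ε * n ∧ (∀ s ∈ l, s ∈ S) ∧
      l.prod = g ^ n := by
  have hM0 : (0 : ℝ) < M := by exact_mod_cast (by omega : 0 < M)
  have hlim : Filter.Tendsto (fun j : ℕ => (K : ℝ) * ((B : ℝ) / M) ^ j) Filter.atTop
      (nhds (K * 0)) := by
    refine Filter.Tendsto.const_mul _ ?_
    refine tendsto_pow_atTop_nhds_zero_of_lt_one (by positivity) ?_
    rw [div_lt_one hM0]
    exact_mod_cast hB
  rw [mul_zero] at hlim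
  obtain ⟨j, hj⟩ := ((hlim.eventually (gt_mem_nhds (half_pos hε))).exists)
  have hMj : (0 : ℝ) < (M : ℝ) ^ j := by positivity
  have hj2 : (K : ℝ) * (B : ℝ) ^ j ≤ ε / 2 * (M : ℝ) ^ j := by
    rw [div_pow, ← mul_div_assoc, div_lt_iff₀ hMj] at hj
    exact hj.le
  obtain ⟨N, hN⟩ := exists_nat_ge ((M : ℝ) ^ j * K / (ε / 2))
  refine ⟨N, fun n hn => ?_⟩
  have hg1 : Wd S K g := by simpa using h 0
  have hw : Wd S (n / M ^ j * (K * B ^ j) + n % M ^ j * K) (g ^ n) := by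
    have e : g ^ n = (g ^ M ^ j) ^ (n / M ^ j) * g ^ (n % M ^ j) := by
      rw [← pow_mul, ← pow_add, Nat.div_add_mod]
    rw [e]
    exact ((h j).pow _).mul (hg1.pow _)
  obtain ⟨l, hl1, hl2, hl3⟩ := hw
  refine ⟨l, ?_, hl2, hl3⟩
  have hnN : (M : ℝ) ^ j * K / (ε / 2) ≤ n := hN.trans (by exact_mod_cast hn)
  have h1 : (M : ℝ) ^ j * K ≤ ε / 2 * n := by
    rw [div_le_iff₀ (by positivity)] at hnN
    linarith
  have h2 : (l.length : ℝ) ≤ ((n / M ^ j : ℕ) : ℝ) * (K * B ^ j) + ((n % M ^ j : ℕ) : ℝ) * K := by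
    exact_mod_cast hl1
  have h3 : ((n / M ^ j : ℕ) : ℝ) * (M : ℝ) ^ j ≤ n := by
    exact_mod_cast Nat.div_mul_le_self n (M ^ j)
  have h4 : ((n % M ^ j : ℕ) : ℝ) ≤ (M : ℝ) ^ j := by
    have : n % M ^ j ≤ M ^ j := (Nat.mod_lt n (pow_pos (by omega : 0 < M) j)).le
    exact_mod_cast this
  have h5 : ((n / M ^ j : ℕ) : ℝ) * (K * B ^ j) ≤ ε / 2 * n := by
    calc ((n / M ^ j : ℕ) : ℝ) * (K * B ^ j) ≤ ((n / M ^ j : ℕ) : ℝ) * (ε / 2 * (M : ℝ) ^ j) :=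
          mul_le_mul_of_nonneg_left hj2 (by positivity)
      _ = ε / 2 * (((n / M ^ j : ℕ) : ℝ) * (M : ℝ) ^ j) := by ring
      _ ≤ ε / 2 * n := mul_le_mul_of_nonneg_left h3 (by positivity)
  have h6 : ((n % M ^ j : ℕ) : ℝ) * K ≤ (M : ℝ) ^ j * K :=
    mul_le_mul_of_nonneg_right h4 (by positivity)
  linarith

end E59
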