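import Pool.Agent.Lib.MP_e59edf_an.Algebra
import Pool.Agent.Lib.MP_e59edf_an.Growth

set_option autoImplicit false

/-! Word length of copies of generators. -/

namespace E59

open Equiv

section

variable {A : Type} {E I : A → Prop} [DecidablePred E] [DecidablePred I]
  {κ : Perm A} (hκE : ∀ x, E (κ x) ↔ E x) (hκ2 : ∀ x, κ (κ x) = x) (H : Set (Perm A))

/-- The generating set. -/
def Gen : Set (Perm (ℕ → A)) :=
  {s | (∃ h ∈ H, s = R h) ∨ s = R κ ∨ s = c hκE hκ2 ∨ (∃ h ∈ H, s = b E I h)}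

variable {hκE hκ2 H}

theorem Gen_R {h : Perm A} (hh : h ∈ H) : R h ∈ Gen (I := I) hκE hκ2 H := Or.inl ⟨h, hh, rfl⟩

theorem Gen_k : R κ ∈ Gen (I := I) hκE hκ2 H := Or.inr (Or.inl rfl)

theorem Gen_c : c hκE hκ2 ∈ Gen (I := I) hκE hκ2 H := Or.inr (Or.inr (Or.inl rfl))

theorem Gen_b {h : Perm A} (hh : h ∈ H) : b E I h ∈ Gen (I := I) hκE hκ2 H :=
  Or.inr (Or.inr (Or.inr ⟨h, hh, rfl⟩))

theorem Gen_inv (hH : ∀ h ∈ H, h⁻¹ ∈ H) :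
    ∀ s ∈ Gen (I := I) hκE hκ2 H, s⁻¹ ∈ Gen (I := I) hκE hκ2 H := by
  rintro s (⟨h, hh, rfl⟩ | rfl | rfl | ⟨h, hh, rfl⟩)
  · rw [← map_inv]
    exact Gen_R (hH h hh)
  · rw [← map_inv, k_inv hκ2]
    exact Gen_k
  · rw [c_inv]
    exact Gen_c
  · rw [← map_inv]
    exact Gen_b (hH h hh)

theorem Gen_finite [Finite A] : (Gen (I := I) hκE hκ2 H).Finite := by
  have h1 : (Set.range (fun h : Perm A => R h)).Finite := Set.finite_range _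
  have h2 : (Set.range (fun h : Perm A => b E I h)).Finite := Set.finite_range _
  refine ((h1.union h2).union (Set.finite_singleton (c hκE hκ2))).subset ?_
  rintro s (⟨h, hh, rfl⟩ | rfl | rfl | ⟨h, hh, rfl⟩)
  · exact Or.inl (Or.inl ⟨h, rfl⟩)
  · exact Or.inl (Or.inl ⟨κ, rfl⟩)
  · exact Or.inr rfl
  · exact Or.inl (Or.inr ⟨h, rfl⟩)

variable (hEI : ∀ x, E x → ¬ I x) (hH : ∀ h ∈ H, h⁻¹ ∈ H)
  (hcomm : ∀ h ∈ H, ∃ h1 ∈ H, ∃ h2 ∈ H, h = h1 * h2 * h1⁻¹ * h2⁻¹)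
  (σ : Perm A) (hσ : σ ∈ H)
  (hσE : ∀ x, E x → ¬ E (σ⁻¹ x)) (hσEI : ∀ x, I x → ¬ E (σ⁻¹ x))
  (hσI : ∀ x, I (σ⁻¹ x) ↔ I x)

include hEI hH hcomm hσ hσE hσEI hσI in
theorem Wd_TI {h : Perm A} (hh : h ∈ H) : Wd (Gen (I := I) hκE hκ2 H) 8 (T I (R h)) := by
  obtain ⟨h1, hh1, h2, hh2, rfl⟩ := hcomm h hh
  rw [← T_comm hEI σ hσE hσEI hσI h1 h2]
  have hinv := Gen_inv (I := I) (hκE := hκE) (hκ2 := hκ2) hH
  have w1 : Wd (Gen (I := I) hκE hκ2 H) 1 (b E I h1) := Wd.of_mem (Gen_b hh1)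
  have w2 : Wd (Gen (I := I) hκE hκ2 H) 3 (R σ * b E I h2 * (R σ)⁻¹) :=
    ((Wd.of_mem (Gen_R hσ)).mul (Wd.of_mem (Gen_b hh2))).mul ((Wd.of_mem (Gen_R hσ)).inv hinv)
  exact ((w1.mul w2).mul (w1.inv hinv)).mul (w2.inv hinv)

include hEI hH hcomm hσ hσE hσEI hσI in
theorem Wd_Tb {h : Perm A} (hh : h ∈ H) : Wd (Gen (I := I) hκE hκ2 H) 9 (T E (b E I h)) := by
  rw [T_b hEI]
  exact (Wd.of_mem (Gen_b hh)).mul
    ((Wd_TI hEI hH hcomm σ hσ hσE hσEI hσI hh).inv (Gen_inv hH))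

theorem Wd_Tc : Wd (Gen (I := I) hκE hκ2 H) 2 (T E (c hκE hκ2)) := by
  rw [T_c]
  exact (Wd.of_mem Gen_k).mul (Wd.of_mem Gen_c)

variable (ha hb hc : Perm A) (hha : ha ∈ H) (hhb : hb ∈ H) (hhc : hc ∈ H)
  (hω : ∀ x, I ((hc * κ * hb * κ * ha) x) ↔ E x)

include hha hhb hhc in
theorem Wd_R5 : Wd (Gen (I := I) hκE hκ2 H) 5 (R (hc * κ * hb * κ * ha)) := by
  simp only [map_mul]
  exact ((((Wd.of_mem (Gen_R hhc)).mul (Wd.of_mem Gen_k)).mul (Wd.of_mem (Gen_R hhb))).mul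
    (Wd.of_mem Gen_k)).mul (Wd.of_mem (Gen_R hha))

include hEI hH hcomm hσ hσE hσEI hσI hha hhb hhc hω in
theorem Wd_TR {h : Perm A} (hh : h ∈ H) : Wd (Gen (I := I) hκE hκ2 H) 18 (T E (R h)) := by
  have e : R (hc * κ * hb * κ * ha)⁻¹ * T I (R h) * (R (hc * κ * hb * κ * ha)⁻¹)⁻¹ =
      T E (R h) := by
    apply T_comp_eq
    intro x
    rw [inv_inv]
    exact hω x
  rw [← e]
  have hinv := Gen_inv (I := I) (hκE := hκE) (hκ2 := hκ2) hH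
  have w5 : Wd (Gen (I := I) hκE hκ2 H) 5 (R (hc * κ * hb * κ * ha)⁻¹) := by
    rw [map_inv]
    exact (Wd_R5 ha hb hc hha hhb hhc).inv hinv
  exact (w5.mul (Wd_TI hEI hH hcomm σ hσ hσE hσEI hσI hh)).mul (w5.inv hinv)

variable (τ : Perm A) (hτ : τ ∈ H) (hτE : ∀ x, E (τ x) ↔ E x) (hκτ : τ * κ * τ * κ * τ = κ)

include hEI hH hcomm hσ hσE hσEI hσI hha hhb hhc hω hτ hτE hκτ in
theorem Wd_T : ∀ s ∈ Gen (I := I) hκE hκ2 H, Wd (Gen (I := I) hκE hκ2 H) 58 (T E s) := by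
  rintro s (⟨h, hh, rfl⟩ | rfl | rfl | ⟨h, hh, rfl⟩)
  · exact (Wd_TR hEI hH hcomm σ hσ hσE hσEI hσI ha hb hc hha hhb hhc hω hh).mono (by omega)
  · rw [T_R_kappa hκE hκ2 τ hτE hκτ]
    have w1 := Wd_TR (hκE := hκE) (hκ2 := hκ2) hEI hH hcomm σ hσ hσE hσEI hσI ha hb hc hha hhb
      hhc hω hτ
    have w2 := Wd_Tc (I := I) (hκE := hκE) (hκ2 := hκ2) (H := H)
    exact (((w1.mul w2).mul w1).mul w2).mul w1
  · exact Wd_Tc.mono (by omega)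
  · exact (Wd_Tb hEI hH hcomm σ hσ hσE hσEI hσI hh).mono (by omega)

end

end E59
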