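import Pool.Agent.Lib.MP_e59edf_an.Algebra

set_option autoImplicit false

/-! The element `g`, its powers and its order. -/

namespace E59

open Equiv

theorem D_eq_one {A : Type} {s : A → Perm (ℕ → A)} (h : D s = 1) (x : A) : s x = 1 := by
  ext u : 1
  have h1 : D s (cns x u) = cns x u := by rw [h]; rfl
  rw [D_apply] at h1
  have h2 := congrArg tl h1
  simpa using h2

theorem RD_eq_one {A : Type} {r : Perm A} {s : A → Perm (ℕ → A)} (h : R r * D s = 1) (x : A) :
    r x = x := by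
  have h1 : (R r * D s) (fun _ => x) = (fun _ => x) := by rw [h]; rfl
  have h2 := congrFun h1 0
  rw [Perm.mul_apply, R_apply, D_apply] at h2
  simpa using h2

section

variable {A : Type} {E I : A → Prop} [DecidablePred E] [DecidablePred I]
  {κ : Perm A} (hκE : ∀ x, E (κ x) ↔ E x) (hκ2 : ∀ x, κ (κ x) = x) (h : Perm A)

/-- The distorted element. -/
def gg : Perm (ℕ → A) := R h * c hκE hκ2 * b E I h

/-- Its sections. -/
def ss (x : A) : Perm (ℕ → A) :=
  if E x then c hκE hκ2 * b E I h else if I x then R h else 1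

theorem gg_eq : gg (I := I) hκE hκ2 h = R (h * κ) * D (ss (I := I) hκE hκ2 h) := by
  unfold gg
  conv_lhs => rw [c_eq hκE hκ2, b_eq, T_apply]
  rw [map_mul]
  simp only [mul_assoc]
  rw [← map_mul D]
  congr 3
  funext x
  simp only [Pi.mul_apply, bs, ss]
  split_ifs <;> simp

variable {hκE hκ2 h}
variable (hκI : ∀ x, I (κ x) ↔ I x) (hh : ∀ x, h (h x) = x)

include hh in
theorem hh_one : h * h = 1 := by
  ext x
  simp [hh]

include hh in
theorem zz : R h * R h = 1 := by
  rw [← map_mul, hh_one hh, map_one]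

include hκI hh in
theorem yy : (c hκE hκ2 * b E I h) * (c hκE hκ2 * b E I h) = 1 := by
  calc (c hκE hκ2 * b E I h) * (c hκE hκ2 * b E I h)
      = (c hκE hκ2 * b E I h) * (b E I h * c hκE hκ2) := by
        rw [← c_b_comm hκE hκ2 hκI h]
    _ = c hκE hκ2 * (b E I h * b E I h) * c hκE hκ2 := by simp only [mul_assoc]
    _ = 1 := by
        rw [← map_mul (b E I), hh_one hh, map_one, mul_one, c_mul_c]

variable (L : ℕ) (hL : 0 < L) (q : ℕ → A) (hq : ∀ t, t < 2 * L → (h * κ) (q t) = q (t + 1))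
  (hqM : q (2 * L) = q 0) (hq0 : E (q 0))
  (hq1 : ∀ t, 1 ≤ t → t < L → ¬ E (q t) ∧ ¬ I (q t))
  (hqL : ¬ E (q L) ∧ I (q L))
  (hq2 : ∀ t, L < t → t < 2 * L → ¬ E (q t) ∧ ¬ I (q t))
  (F0 F1 : A → Prop) [DecidablePred F0] [DecidablePred F1]
  (hF0 : ∀ x, F0 x → x = q 0 ∨ ∃ t, L < t ∧ t < 2 * L ∧ x = q t)
  (hF1 : ∀ x, F1 x → ∃ t, 1 ≤ t ∧ t ≤ L ∧ x = q t)
  (hF : ∀ x, ¬ F0 x → ¬ F1 x → (h * κ) ((h * κ) x) = x ∧ (E ((h * κ) x) ↔ E x) ∧
    (I ((h * κ) x) ↔ I x))

/-- Partial products along the cycle. -/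
def PP (hκE : ∀ x, E (κ x) ↔ E x) (hκ2 : ∀ x, κ (κ x) = x) (h : Perm A) (L : ℕ)
    (t : ℕ) : Perm (ℕ → A) :=
  if t = 0 then 1 else if t ≤ L then c hκE hκ2 * b E I h else R h * (c hκE hκ2 * b E I h)

include hL hq0 hq1 hqL hq2 in
theorem PP_step (t : ℕ) (ht : t < 2 * L) :
    ss (I := I) hκE hκ2 h (q t) * PP (I := I) hκE hκ2 h L t =
      PP (I := I) hκE hκ2 h L (t + 1) := by
  unfold ss PP
  rcases Nat.eq_zero_or_pos t with rfl | h0
  · rw [if_pos hq0, if_pos rfl, if_neg (by omega), if_pos (by omega), mul_one]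
  · rcases lt_trichotomy t L with h1 | rfl | h1
    · rw [if_neg (hq1 t h0 h1).1, if_neg (hq1 t h0 h1).2, if_neg (by omega), if_pos (by omega),
        if_neg (by omega), if_pos (by omega), one_mul]
    · rw [if_neg hqL.1, if_pos hqL.2, if_neg (by omega), if_pos (by omega),
        if_neg (by omega), if_neg (by omega)]
    · rw [if_neg (hq2 t h1 ht).1, if_neg (hq2 t h1 ht).2, if_neg (by omega), if_neg (by omega),
        if_neg (by omega), if_neg (by omega), one_mul]

include hκI hh hL hq hqM hq0 hq1 hqL hq2 hF0 hF1 hF in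
theorem gg_pow_M : gg (I := I) hκE hκ2 h ^ (2 * L) =
    D (fun x => if F0 x then gg (I := I) hκE hκ2 h
      else if F1 x then R h * gg (I := I) hκE hκ2 h * (R h)⁻¹ else 1) := by
  have hfull := Sec_full (h * κ) (ss (I := I) hκE hκ2 h) (2 * L) q (PP (I := I) hκE hκ2 h L) hq
    (PP_step (I := I) (hκE := hκE) (hκ2 := hκ2) L hL q hq0 hq1 hqL hq2) hqM rfl
  have hPM : PP (I := I) hκE hκ2 h L (2 * L) = gg (I := I) hκE hκ2 h := by
    unfold PP gg
    rw [if_neg (by omega), if_neg (by omega), mul_assoc]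
  rw [hPM] at hfull
  have key : ∀ x, ((h * κ) ^ (2 * L)) x = x ∧ Sec (h * κ) (ss (I := I) hκE hκ2 h) (2 * L) x =
      if F0 x then gg (I := I) hκE hκ2 h
      else if F1 x then R h * gg (I := I) hκE hκ2 h * (R h)⁻¹ else 1 := by
    intro x
    by_cases h0 : F0 x
    · rw [if_pos h0]
      rcases hF0 x h0 with rfl | ⟨t, h1, h2, rfl⟩
      · refine ⟨(hfull 0 (by omega)).1, ?_⟩
        rw [(hfull 0 (by omega)).2]
        simp [PP]
      · refine ⟨(hfull t (by omega)).1, ?_⟩
        rw [(hfull t (by omega)).2]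
        have : PP (I := I) hκE hκ2 h L t = gg (I := I) hκE hκ2 h := by
          unfold PP gg
          rw [if_neg (by omega), if_neg (by omega), mul_assoc]
        rw [this]
        simp
    · rw [if_neg h0]
      by_cases h1 : F1 x
      · rw [if_pos h1]
        obtain ⟨t, h2, h3, rfl⟩ := hF1 x h1
        refine ⟨(hfull t (by omega)).1, ?_⟩
        rw [(hfull t (by omega)).2]
        have : PP (I := I) hκE hκ2 h L t = c hκE hκ2 * b E I h := by
          unfold PP
          rw [if_neg (by omega), if_pos (by omega)]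
        rw [this]
        have hy := yy (hκE := hκE) (hκ2 := hκ2) hκI hh
        have hz := zz hh
        have hg : gg (I := I) hκE hκ2 h = R h * (c hκE hκ2 * b E I h) := by
          unfold gg
          rw [mul_assoc]
        rw [hg]
        generalize c hκE hκ2 * b E I h = y at hy ⊢
        generalize R h = z at hz ⊢
        have hzi : z⁻¹ = z := by rw [inv_eq_iff_mul_eq_one]; exact hz
        have hyi : y⁻¹ = y := by rw [inv_eq_iff_mul_eq_one]; exact hy
        rw [hzi, hyi]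
        calc y * (z * y) * y = y * z * (y * y) := by simp only [mul_assoc]
          _ = y * z := by rw [hy, mul_one]
          _ = (z * z) * y * z := by rw [hz, one_mul]
          _ = z * (z * y) * z := by simp only [mul_assoc]
      · rw [if_neg h1]
        obtain ⟨h2, h3, h4⟩ := hF x h0 h1
        apply Sec_two
        · exact h2
        · unfold ss
          simp only [h3, h4]
          split_ifs
          · exact yy hκI hh
          · exact zz hh
          · exact one_mul 1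
  rw [gg_eq, pow_RD]
  have h1 : (h * κ) ^ (2 * L) = 1 := by
    ext x
    rw [(key x).1]
    rfl
  rw [h1, map_one, one_mul]
  congr 1
  funext x
  rw [(key x).2, gg_eq]

include hκI hh hL hq hqM hq0 hq1 hqL hq2 hF0 hF1 hF in
theorem gg_pow (n : ℕ) : gg (I := I) hκE hκ2 h ^ (2 * L * n) =
    D (fun x => if F0 x then gg (I := I) hκE hκ2 h ^ n
      else if F1 x then R h * gg (I := I) hκE hκ2 h ^ n * (R h)⁻¹ else 1) := by
  rw [pow_mul, gg_pow_M hκI hh L hL q hq hqM hq0 hq1 hqL hq2 F0 F1 hF0 hF1 hF, ← map_pow]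
  congr 1
  funext x
  simp only [Pi.pow_apply]
  split_ifs
  · rfl
  · rw [conj_pow]
  · rw [one_pow]

include hκI hh hL hq hqM hq0 hq1 hqL hq2 hF0 hF1 hF in
theorem gg_ne_one (hF00 : F0 (q 0)) (hqne : ∀ t, 0 < t → t < 2 * L → q t ≠ q 0) (n : ℕ) :
    0 < n → gg (I := I) hκE hκ2 h ^ n ≠ 1 := by
  induction n using Nat.strong_induction_on with
  | _ n ih =>
    intro hn hone
    have h1 := hone
    rw [gg_eq, pow_RD] at h1
    have h2 := RD_eq_one h1 (q 0)
    have hcyc := Sec_cycle (h * κ) (ss (I := I) hκE hκ2 h) (2 * L) q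
      (PP (I := I) hκE hκ2 h L) hq
      (PP_step (I := I) (hκE := hκE) (hκ2 := hκ2) L hL q hq0 hq1 hqL hq2)
    have h3 : ((h * κ) ^ (2 * L)) (q 0) = q 0 := by
      have := (hcyc (2 * L) 0 (by omega)).1
      rw [this, Nat.zero_add, hqM]
    have h4 : ∀ m, (((h * κ) ^ (2 * L)) ^ m) (q 0) = q 0 := by
      intro m
      induction m with
      | zero => rfl
      | succ m ihm => rw [pow_succ, Perm.mul_apply, h3, ihm]
    have h5 : n = n % (2 * L) + 2 * L * (n / (2 * L)) := (Nat.mod_add_div n (2 * L)).symm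
    have hr : n % (2 * L) < 2 * L := Nat.mod_lt _ (by omega)
    rw [h5, pow_add, Perm.mul_apply, pow_mul, h4,
      (hcyc (n % (2 * L)) 0 (by omega)).1, Nat.zero_add] at h2
    have h6 : n % (2 * L) = 0 := by
      by_contra hne
      exact hqne _ (by omega) hr h2
    rw [h6, Nat.zero_add] at h5
    have hm : 0 < n / (2 * L) := by
      rcases Nat.eq_zero_or_pos (n / (2 * L)) with h0 | h0
      · rw [h0] at h5; omega
      · exact h0
    have hlt : n / (2 * L) < n := Nat.div_lt_self hn (by omega)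
    apply ih _ hlt hm
    rw [h5, gg_pow hκI hh L hL q hq hqM hq0 hq1 hqL hq2 F0 F1 hF0 hF1 hF] at hone
    have h7 := D_eq_one hone (q 0)
    rwa [if_pos hF00] at h7

end

/-- Splitting a diagonal permutation into copies. -/
theorem D_split {A : Type} {E : A → Prop} [DecidablePred E] (F0 F1 : A → Prop)
    [DecidablePred F0] [DecidablePred F1] (K : A → Fin 3) (hF : ∀ x, F0 x → ¬ F1 x)
    (h : Perm A) (hhF : ∀ x, F0 (h⁻¹ x) ↔ F1 x) (hhK : ∀ x, K (h⁻¹ x) = K x)
    (w0 w1 w2 : Perm A)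
    (hw0 : ∀ x, E (w0⁻¹ x) ↔ (F0 x ∧ K x = 0)) (hw1 : ∀ x, E (w1⁻¹ x) ↔ (F0 x ∧ K x = 1))
    (hw2 : ∀ x, E (w2⁻¹ x) ↔ (F0 x ∧ K x = 2)) (γ : Perm (ℕ → A)) :
    D (fun x => if F0 x then γ else if F1 x then R h * γ * (R h)⁻¹ else 1) =
      (R w0 * T E γ * (R w0)⁻¹) * (R w1 * T E γ * (R w1)⁻¹) * (R w2 * T E γ * (R w2)⁻¹) *
      ((R h * R w0 * T E (R h)) * T E γ * (R h * R w0 * T E (R h))⁻¹) *
      ((R h * R w1 * T E (R h)) * T E γ * (R h * R w1 * T E (R h))⁻¹) *
      ((R h * R w2 * T E (R h)) * T E γ * (R h * R w2 * T E (R h))⁻¹) := by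
  have key : ∀ (w : Perm A) (k : Fin 3), (∀ x, E (w⁻¹ x) ↔ (F0 x ∧ K x = k)) →
      (R h * R w * T E (R h)) * T E γ * (R h * R w * T E (R h))⁻¹ =
        T (fun x => F1 x ∧ K x = k) (R h * γ * (R h)⁻¹) := by
    intro w k hw
    have e1 : (R h * R w * T E (R h)) * T E γ * (R h * R w * T E (R h))⁻¹ =
        R h * (R w * T E (R h * γ * (R h)⁻¹) * (R w)⁻¹) * (R h)⁻¹ := by
      simp only [map_mul, map_inv, mul_inv_rev, mul_assoc]
    rw [e1, T_comp_eq E (fun x => F0 x ∧ K x = k) w hw,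
      T_comp_eq (fun x => F0 x ∧ K x = k) (fun x => F1 x ∧ K x = k) h]
    intro x
    rw [hhF, hhK]
  rw [key w0 0 hw0, key w1 1 hw1, key w2 2 hw2,
    T_comp_eq E (fun x => F0 x ∧ K x = 0) w0 hw0, T_comp_eq E (fun x => F0 x ∧ K x = 1) w1 hw1,
    T_comp_eq E (fun x => F0 x ∧ K x = 2) w2 hw2]
  simp only [T_apply, ← map_mul]
  congr 1
  funext x
  simp only [Pi.mul_apply]
  by_cases h0 : F0 x
  · have h1 := hF x h0
    generalize K x = k
    fin_cases k <;> simp [h0, h1]
  · by_cases h1 : F1 x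
    · generalize K x = k
      fin_cases k <;> simp [h0, h1]
    · simp [h0, h1]

end E59
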