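import Pool.Agent.Lib.MP_e59edf_an.Rules
import Pool.Agent.Lib.MP_e59edf_an.Bounds
import Pool.Agent.Lib.MP_e59edf_an.Formula

set_option autoImplicit false

/-! The concrete alphabet and the concrete permutations. -/

namespace E59

open Equiv

/-- The alphabet. -/
abbrev AA := Fin 177 × Fin 5

def Kf (x : AA) : Fin 3 :=
  if x.1.val % 6 = 0 ∨ x.1.val % 6 = 5 then 0
  else if x.1.val % 6 = 1 ∨ x.1.val % 6 = 4 then 1 else 2

def EE (x : AA) : Prop := x.2 = 0 ∧ Kf x = 0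

def II (x : AA) : Prop := x.2 = 0 ∧ Kf x = 2

instance : DecidablePred EE := fun x => inferInstanceAs (Decidable (x.2 = 0 ∧ Kf x = 0))

instance : DecidablePred II := fun x => inferInstanceAs (Decidable (x.2 = 0 ∧ Kf x = 2))

def kf (x : AA) : AA :=
  if h : x.1.val + 1 < 177 then
    if x.2 = 1 then (x.1, 2)
    else if x.2 = 2 then (x.1, 1)
    else if x.2 = 3 then (⟨x.1.val + 1, h⟩, 4)
    else if x.2 = 4 then (if 0 < x.1.val then (⟨x.1.val - 1, by omega⟩, 3) else x)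
    else x
  else if x.2 = 4 then (⟨x.1.val - 1, by omega⟩, 3)
  else x

theorem kf_kf : ∀ t : Fin 177, ∀ i : Fin 5, kf (kf (t, i)) = (t, i) := by
  decide +kernel

def kap : Perm AA := ⟨kf, kf, fun x => kf_kf x.1 x.2, fun x => kf_kf x.1 x.2⟩

def JJ1 (x : AA) : Prop := (Kf x = 0 ∧ Kf (kf x) = 1) ∨ (Kf x = 1 ∧ Kf (kf x) = 0)

def JJ2 (x : AA) : Prop := (Kf x = 1 ∧ Kf (kf x) = 2) ∨ (Kf x = 2 ∧ Kf (kf x) = 1)

instance : DecidablePred JJ1 := fun x =>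
  inferInstanceAs (Decidable ((Kf x = 0 ∧ Kf (kf x) = 1) ∨ (Kf x = 1 ∧ Kf (kf x) = 0)))

instance : DecidablePred JJ2 := fun x =>
  inferInstanceAs (Decidable ((Kf x = 1 ∧ Kf (kf x) = 2) ∨ (Kf x = 2 ∧ Kf (kf x) = 1)))

theorem EE_II (x : AA) (h : EE x) : ¬ II x := by
  rintro ⟨_, h2⟩
  have h3 := h.2
  rw [h2] at h3
  exact absurd h3 (by decide)

theorem kap_facts : ∀ t : Fin 177, ∀ i : Fin 5,
    (EE (kap (t, i)) ↔ EE (t, i)) ∧ (II (kap (t, i)) ↔ II (t, i)) ∧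
    (JJ1 (kap (t, i)) ↔ JJ1 (t, i)) ∧ (JJ2 (kap (t, i)) ↔ JJ2 (t, i)) ∧
    (JJ1 (t, i) → ¬ EE (t, i) ∧ ¬ II (t, i)) ∧
    (JJ2 (t, i) → ¬ EE (t, i) ∧ ¬ II (t, i) ∧ ¬ JJ1 (t, i)) ∧
    (¬ JJ1 (t, i) → ¬ JJ2 (t, i) → Kf (kap (t, i)) = Kf (t, i)) ∧
    (JJ1 (t, i) → Kf (kap (t, i)) = 1 - Kf (t, i) ∧ Kf (t, i) ≠ 2) ∧
    (JJ2 (t, i) → Kf (kap (t, i)) = 0 - Kf (t, i) ∧ Kf (t, i) ≠ 0) := by
  decide +kernel

/-- Blockwise permutations. -/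
def bp (p : Fin 177 → Perm (Fin 5)) : Perm AA where
  toFun x := (x.1, p x.1 x.2)
  invFun x := (x.1, (p x.1)⁻¹ x.2)
  left_inv x := by simp
  right_inv x := by simp

theorem bp_apply (p : Fin 177 → Perm (Fin 5)) (x : AA) : bp p x = (x.1, p x.1 x.2) := rfl

theorem bp_inv (p : Fin 177 → Perm (Fin 5)) : (bp p)⁻¹ = bp (fun t => (p t)⁻¹) := by
  ext1 x
  rfl

theorem bp_mul (p p' : Fin 177 → Perm (Fin 5)) : bp p * bp p' = bp (fun t => p t * p' t) := by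
  ext1 x
  rfl

/-- Base three-cycle. -/
def t0 : Perm (Fin 5) := swap 1 2 * swap 2 3

/-- Base double transposition. -/
def s0 : Perm (Fin 5) := swap 0 3 * swap 1 2

def V (v : Perm (Fin 5)) : Prop :=
  ∃ c x : Perm (Fin 5), (x = 1 ∨ x = t0 ∨ x = s0) ∧ v = c * x * c⁻¹

theorem V_one : V 1 := ⟨1, 1, Or.inl rfl, by simp⟩

theorem V_t0 : V t0 := ⟨1, t0, Or.inr (Or.inl rfl), by simp⟩

theorem V_s0 : V s0 := ⟨1, s0, Or.inr (Or.inr rfl), by simp⟩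

theorem V_conj {v : Perm (Fin 5)} (c : Perm (Fin 5)) (h : V v) : V (c * v * c⁻¹) := by
  obtain ⟨d, x, hx, rfl⟩ := h
  exact ⟨c * d, x, hx, by group⟩

theorem t0_inv : t0⁻¹ = swap 1 2 * t0 * (swap 1 2)⁻¹ := by decide +kernel

theorem s0_inv : s0⁻¹ = s0 := by decide +kernel

theorem V_inv {v : Perm (Fin 5)} (h : V v) : V v⁻¹ := by
  obtain ⟨d, x, hx, rfl⟩ := h
  have e : (d * x * d⁻¹)⁻¹ = d * x⁻¹ * d⁻¹ := by group
  rw [e]
  apply V_conj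
  rcases hx with rfl | rfl | rfl
  · rw [inv_one]; exact V_one
  · rw [t0_inv]; exact V_conj _ V_t0
  · rw [s0_inv]; exact V_s0

def s1 : Perm (Fin 5) := swap 3 4 * s0 * (swap 3 4)⁻¹

def s2 : Perm (Fin 5) := t0 * s0 * t0⁻¹

theorem V_s1 : V s1 := V_conj _ V_s0

theorem V_s2 : V s2 := V_conj _ V_s0

theorem t0_comm : t0 = t0⁻¹ * s1 * (t0⁻¹)⁻¹ * s1⁻¹ := by decide +kernel

theorem s0_comm : s0 = t0 * s2 * t0⁻¹ * s2⁻¹ := by decide +kernel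

theorem V_comm {v : Perm (Fin 5)} (h : V v) : ∃ a b, V a ∧ V b ∧ v = a * b * a⁻¹ * b⁻¹ := by
  obtain ⟨d, x, hx, rfl⟩ := h
  have key : ∃ a b, V a ∧ V b ∧ x = a * b * a⁻¹ * b⁻¹ := by
    rcases hx with rfl | rfl | rfl
    · exact ⟨1, 1, V_one, V_one, by simp⟩
    · exact ⟨t0⁻¹, s1, V_inv V_t0, V_s1, t0_comm⟩
    · exact ⟨t0, s2, V_t0, V_s2, s0_comm⟩
  obtain ⟨a, b, ha, hb, rfl⟩ := key
  exact ⟨d * a * d⁻¹, d * b * d⁻¹, V_conj _ ha, V_conj _ hb, by group⟩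

/-- The blockwise permutations which are used. -/
def HH : Set (Perm AA) := {h | ∃ p : Fin 177 → Perm (Fin 5), (∀ t, V (p t)) ∧ h = bp p}

theorem HH_inv : ∀ h ∈ HH, h⁻¹ ∈ HH := by
  rintro h ⟨p, hp, rfl⟩
  exact ⟨fun t => (p t)⁻¹, fun t => V_inv (hp t), bp_inv p⟩

theorem HH_comm : ∀ h ∈ HH, ∃ h1 ∈ HH, ∃ h2 ∈ HH, h = h1 * h2 * h1⁻¹ * h2⁻¹ := by
  rintro h ⟨p, hp, rfl⟩
  choose a b ha hb hab using fun t => V_comm (hp t)
  refine ⟨bp a, ⟨a, ha, rfl⟩, bp b, ⟨b, hb, rfl⟩, ?_⟩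
  rw [bp_inv, bp_inv, bp_mul, bp_mul, bp_mul]
  congr 1
  funext t
  exact hab t

theorem HH_K : ∀ h ∈ HH, ∀ x, Kf (h x) = Kf x := by
  rintro h ⟨p, hp, rfl⟩ x
  rfl

/-- Double transposition with `1 2` and `0 3`. -/
def d03 : Perm (Fin 5) := swap 0 3 * swap 1 2
def d04 : Perm (Fin 5) := swap 0 4 * swap 1 2
def d34 : Perm (Fin 5) := swap 3 4 * swap 1 2

theorem V_d03 : V d03 := V_s0

theorem V_d04 : V d04 := by
  have : d04 = swap 3 4 * s0 * (swap 3 4)⁻¹ := by decide +kernel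
  rw [this]
  exact V_conj _ V_s0

theorem V_d34 : V d34 := by
  have : d34 = swap 0 4 * s0 * (swap 0 4)⁻¹ := by decide +kernel
  rw [this]
  exact V_conj _ V_s0

/-- Blockwise permutation with value depending on residues modulo six. -/
def m6 (p0 p1 p2 p3 p4 p5 : Perm (Fin 5)) (t : Fin 177) : Perm (Fin 5) :=
  if t.val % 6 = 0 then p0 else if t.val % 6 = 1 then p1 else if t.val % 6 = 2 then p2
  else if t.val % 6 = 3 then p3 else if t.val % 6 = 4 then p4 else p5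

theorem m6_mem {p0 p1 p2 p3 p4 p5 : Perm (Fin 5)} (h0 : V p0) (h1 : V p1) (h2 : V p2)
    (h3 : V p3) (h4 : V p4) (h5 : V p5) : bp (m6 p0 p1 p2 p3 p4 p5) ∈ HH := by
  refine ⟨_, fun t => ?_, rfl⟩
  unfold m6
  split_ifs <;> assumption

def sig : Perm AA :=
  bp (m6 (swap 0 1 * t0 * (swap 0 1)⁻¹) 1 1 1 1 (swap 0 1 * t0 * (swap 0 1)⁻¹))

theorem sig_mem : sig ∈ HH :=
  m6_mem (V_conj _ V_t0) V_one V_one V_one V_one (V_conj _ V_t0)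

theorem sig_facts : ∀ t : Fin 177, ∀ i : Fin 5,
    (EE (t, i) → ¬ EE (sig⁻¹ (t, i))) ∧ (II (t, i) → ¬ EE (sig⁻¹ (t, i))) ∧
    (II (sig⁻¹ (t, i)) ↔ II (t, i)) := by
  decide +kernel

def tau : Perm AA := bp (fun _ => t0)

theorem tau_mem : tau ∈ HH := ⟨fun _ => t0, fun _ => V_t0, rfl⟩

theorem tau_facts : ∀ t : Fin 177, ∀ i : Fin 5,
    (EE (tau (t, i)) ↔ EE (t, i)) ∧ (tau * kap * tau * kap * tau) (t, i) = kap (t, i) := by
  decide +kernel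

def hA : Perm AA := bp (m6 d03 1 1 1 1 d04)
def hB : Perm AA := bp (m6 1 d34 1 1 d34 1)
def hC : Perm AA := bp (m6 1 1 d04 d03 1 1)
def hB' : Perm AA := bp (m6 1 1 1 1 d34 1)
def hC' : Perm AA := bp (m6 1 1 1 d34 1 1)

theorem hA_mem : hA ∈ HH := m6_mem V_d03 V_one V_one V_one V_one V_d04
theorem hB_mem : hB ∈ HH := m6_mem V_one V_d34 V_one V_one V_d34 V_one
theorem hC_mem : hC ∈ HH := m6_mem V_one V_one V_d04 V_d03 V_one V_one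
theorem hB'_mem : hB' ∈ HH := m6_mem V_one V_one V_one V_one V_d34 V_one
theorem hC'_mem : hC' ∈ HH := m6_mem V_one V_one V_one V_d34 V_one V_one

theorem om_facts : ∀ t : Fin 177, ∀ i : Fin 5,
    (II ((hC * kap * hB * kap * hA) (t, i)) ↔ EE (t, i)) := by
  decide +kernel

/-- The blocks of the permutation `h`. -/
def hgp (t : Fin 177) : Perm (Fin 5) :=
  if t.val = 0 then d03 else if t.val = 176 then d04 else d34

def hg : Perm AA := bp hgp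

theorem hg_mem : hg ∈ HH := by
  refine ⟨hgp, fun t => ?_, rfl⟩
  unfold hgp
  split_ifs
  · exact V_d03
  · exact V_d04
  · exact V_d34

def FF0 (x : AA) : Prop := (x.1.val = 0 ∧ x.2 = 0) ∨ (x.1.val ≠ 0 ∧ x.2 = 4)

def FF1 (x : AA) : Prop := (x.1.val = 176 ∧ x.2 = 0) ∨ (x.1.val ≠ 176 ∧ x.2 = 3)

instance : DecidablePred FF0 := fun x =>
  inferInstanceAs (Decidable ((x.1.val = 0 ∧ x.2 = 0) ∨ (x.1.val ≠ 0 ∧ x.2 = 4)))

instance : DecidablePred FF1 := fun x =>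
  inferInstanceAs (Decidable ((x.1.val = 176 ∧ x.2 = 0) ∨ (x.1.val ≠ 176 ∧ x.2 = 3)))

def wp0 (t : Fin 177) : Perm (Fin 5) :=
  if t.val = 0 then 1 else if t.val % 6 = 0 then d04 else if t.val % 6 = 5 then d04 else 1

def w0 : Perm AA := bp wp0

theorem w0_mem : w0 ∈ HH := by
  refine ⟨wp0, fun t => ?_, rfl⟩
  unfold wp0
  split_ifs
  · exact V_one
  · exact V_d04
  · exact V_d04
  · exact V_one

def w1 : Perm AA := hB' * kap * hA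

def w2 : Perm AA := hC' * kap * hB * kap * hA

theorem w_facts : ∀ t : Fin 177, ∀ i : Fin 5,
    (EE (w0⁻¹ (t, i)) ↔ (FF0 (t, i) ∧ Kf (t, i) = 0)) ∧
    (EE (w1⁻¹ (t, i)) ↔ (FF0 (t, i) ∧ Kf (t, i) = 1)) ∧
    (EE (w2⁻¹ (t, i)) ↔ (FF0 (t, i) ∧ Kf (t, i) = 2)) := by
  decide +kernel

/-- The cycle. -/
def qq (t : ℕ) : AA :=
  if t = 0 then (0, 0)
  else if h1 : t < 177 then (⟨t - 1, by omega⟩, 3)
  else if h2 : t = 177 then (176, 0)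
  else if h3 : t < 354 then (⟨354 - t, by omega⟩, 4)
  else (0, 0)

theorem qq_step : ∀ t < 354, (hg * kap) (qq t) = qq (t + 1) := by
  decide +kernel

theorem qq_facts1 : ∀ t < 177, 1 ≤ t → ¬ EE (qq t) ∧ ¬ II (qq t) := by
  decide +kernel

theorem qq_facts2 : ∀ t < 354, 177 < t → ¬ EE (qq t) ∧ ¬ II (qq t) := by
  decide +kernel

theorem qq_facts3 : ∀ t < 354, 0 < t → qq t ≠ qq 0 := by
  decide +kernel

theorem FF_facts : ∀ t : Fin 177, ∀ i : Fin 5,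
    (FF0 (t, i) → (t, i) = qq 0 ∨
      (177 < 354 - t.val ∧ 354 - t.val < 354 ∧ (t, i) = qq (354 - t.val))) ∧
    (FF1 (t, i) → (t, i) = qq (t.val + 1)) ∧
    (¬ FF0 (t, i) → ¬ FF1 (t, i) → (hg * kap) ((hg * kap) (t, i)) = (t, i) ∧
      (EE ((hg * kap) (t, i)) ↔ EE (t, i)) ∧ (II ((hg * kap) (t, i)) ↔ II (t, i))) ∧
    (FF0 (t, i) → ¬ FF1 (t, i)) ∧ (FF0 (hg⁻¹ (t, i)) ↔ FF1 (t, i)) ∧
    hg (hg (t, i)) = (t, i) := by
  decide +kernel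

end E59
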