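import Pool.Agent.Lib.MP_e59edf_an.Words

set_option autoImplicit false

/-! The label function and its behaviour under the three families of permutations. -/

namespace E59

open Equiv

/-- Signals. -/
abbrev Sg := Fin 3 × Fin 3

variable {A : Type}

section Defs

variable (E I J1 J2 : A → Prop) [DecidablePred E] [DecidablePred I] [DecidablePred J1]
  [DecidablePred J2]

def fR (x : A) (m : Sg) : Sg :=
  if E x then (0, 1) else if I x then (0, 2) else if J1 x then (1, m.1)
  else if J2 x then (2, m.2) else (0, 0)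

def fL (x : A) (m : Sg) : Sg := if E x then m else (0, 0)

def ff (t : Bool) (x : A) (m : Sg) : Sg := if t then fL E x m else fR E I J1 J2 x m

def mu (u : ℕ → A) (k a : ℕ) : Sg :=
  if a = 0 then (0, 0)
  else if a % 2 = 0 then mu u (k + 1) (a / 2)
  else ff E I J1 J2 (decide (a / 2 % 2 = 1)) (u k) (mu u (k + 1) (a / 2))
termination_by a
decreasing_by all_goals omega

theorem mu_zero (u : ℕ → A) (k : ℕ) : mu E I J1 J2 u k 0 = (0, 0) := by
  rw [mu, if_pos rfl]

theorem mu_even (u : ℕ → A) (k a : ℕ) :
    mu E I J1 J2 u k (2 * a) = mu E I J1 J2 u (k + 1) a := by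
  rcases Nat.eq_zero_or_pos a with rfl | h
  · rw [Nat.mul_zero, mu_zero, mu_zero]
  · rw [mu, if_neg (by omega), if_pos (by omega), Nat.mul_div_cancel_left a (by omega)]

theorem mu_odd (u : ℕ → A) (k a : ℕ) :
    mu E I J1 J2 u k (2 * a + 1) =
      ff E I J1 J2 (decide (a % 2 = 1)) (u k) (mu E I J1 J2 u (k + 1) a) := by
  have h : (2 * a + 1) / 2 = a := by omega
  rw [mu, if_neg (by omega), if_neg (by omega), h]

theorem mu_pow (u : ℕ → A) (n : ℕ) : ∀ k a : ℕ,
    mu E I J1 J2 u k (2 ^ n * a) = mu E I J1 J2 u (k + n) a := by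
  induction n with
  | zero => intro k a; simp
  | succ n ih =>
    intro k a
    have e : 2 ^ (n + 1) * a = 2 * (2 ^ n * a) := by ring
    rw [e, mu_even, ih]
    congr 1
    omega

/-- The chain lemma. -/
theorem mu_chain (u : ℕ → A) (n : ℕ) : ∀ j a : ℕ,
    mu E I J1 J2 u j (2 ^ (n + 1) * (2 * a + 1) - 1) =
      if ∀ i < n, E (u (j + i)) then fR E I J1 J2 (u (j + n)) (mu E I J1 J2 u (j + n + 2) a)
      else (0, 0) := by
  induction n with
  | zero =>
    intro j a
    have e : 2 ^ (0 + 1) * (2 * a + 1) - 1 = 2 * (2 * a) + 1 := by omega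
    rw [e, mu_odd, mu_even, if_pos (by intro i hi; omega)]
    have : (2 * a) % 2 ≠ 1 := by omega
    simp [ff]
  | succ n ih =>
    intro j a
    have hpos : 0 < 2 ^ n * (2 * a + 1) := by positivity
    have e : 2 ^ (n + 1 + 1) * (2 * a + 1) - 1 = 2 * (2 ^ (n + 1) * (2 * a + 1) - 1) + 1 := by
      have : 2 ^ (n + 1 + 1) * (2 * a + 1) = 4 * (2 ^ n * (2 * a + 1)) := by ring
      have h2 : 2 ^ (n + 1) * (2 * a + 1) = 2 * (2 ^ n * (2 * a + 1)) := by ring
      omega
    have hodd : (2 ^ (n + 1) * (2 * a + 1) - 1) % 2 = 1 := by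
      have h2 : 2 ^ (n + 1) * (2 * a + 1) = 2 * (2 ^ n * (2 * a + 1)) := by ring
      omega
    rw [e, mu_odd, hodd, ih]
    simp only [ff, fL, decide_true, if_true]
    have e1 : j + 1 + n = j + (n + 1) := by omega
    rw [e1]
    by_cases h : E (u j)
    · rw [if_pos h]
      have key : (∀ i < n, E (u (j + 1 + i))) ↔ (∀ i < n + 1, E (u (j + i))) := by
        constructor
        · intro hh i hi
          rcases i with _ | i
          · exact h
          · have := hh i (by omega)
            have e2 : j + 1 + i = j + (i + 1) := by omega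
            rwa [e2] at this
        · intro hh i hi
          have := hh (i + 1) (by omega)
          have e2 : j + 1 + i = j + (i + 1) := by omega
          rwa [e2]
      simp only [key]
    · rw [if_neg h, if_neg]
      intro hh
      exact h (hh 0 (by omega))

end Defs

section Coord

variable {E I J1 J2 : A → Prop} [DecidablePred E] [DecidablePred I] [DecidablePred J1]
  [DecidablePred J2]

theorem brun_succ (hEI : ∀ x, E x → ¬ I x) (h : Perm A) (k : ℕ) : ∀ u : ℕ → A,
    brun E I h (k + 1) u =
      if (∀ i < k, E (u i)) ∧ I (u k) then h (u (k + 1)) else u (k + 1) := by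
  induction k with
  | zero =>
    intro u
    have e0 : brun E I h (0 + 1) u =
      if E (u 0) then u 1 else if I (u 0) then h (u 1) else u 1 := rfl
    rw [e0]
    by_cases h1 : E (u 0)
    · rw [if_pos h1, if_neg]
      rintro ⟨_, h2⟩
      exact hEI _ h1 h2
    · rw [if_neg h1]
      by_cases h2 : I (u 0)
      · rw [if_pos h2, if_pos]
        exact ⟨fun i hi => absurd hi (Nat.not_lt_zero i), h2⟩
      · rw [if_neg h2, if_neg]
        exact fun h3 => h2 h3.2
  | succ k ih =>
    intro u
    have e0 : brun E I h (k + 1 + 1) u =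
      if E (u 0) then brun E I h (k + 1) (tl u)
      else if I (u 0) then u (k + 1 + 1) else u (k + 1 + 1) := rfl
    rw [e0, ih, ite_self]
    by_cases h1 : E (u 0)
    · rw [if_pos h1]
      have key : ((∀ i < k, E (tl u i)) ∧ I (tl u k)) ↔
          ((∀ i < k + 1, E (u i)) ∧ I (u (k + 1))) := by
        constructor
        · rintro ⟨hh, h3⟩
          refine ⟨fun i hi => ?_, h3⟩
          rcases i with _ | i
          · exact h1
          · exact hh i (by omega)
        · rintro ⟨hh, h3⟩
          exact ⟨fun i hi => hh (i + 1) (by omega), h3⟩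
      simp only [key]
      rfl
    · rw [if_neg h1, if_neg]
      intro h3
      exact h1 (h3.1 0 (by omega))

theorem b_coord_zero (h : Perm A) (u : ℕ → A) : b E I h u 0 = u 0 := rfl

theorem b_coord (hEI : ∀ x, E x → ¬ I x) (h : Perm A) (k : ℕ) (u : ℕ → A) :
    b E I h u (k + 1) =
      if (∀ i < k, E (u i)) ∧ I (u k) then h (u (k + 1)) else u (k + 1) :=
  brun_succ hEI h k u

variable {κ : Perm A}

theorem crun_eq (k : ℕ) : ∀ u : ℕ → A,
    crun E κ k u = if (∀ i < k, E (u i)) then κ (u k) else u k := by
  induction k with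
  | zero =>
    intro u
    rw [if_pos (fun i hi => absurd hi (Nat.not_lt_zero i))]
    rfl
  | succ k ih =>
    intro u
    have e0 : crun E κ (k + 1) u = if E (u 0) then crun E κ k (tl u) else u (k + 1) := rfl
    rw [e0, ih]
    by_cases h1 : E (u 0)
    · rw [if_pos h1]
      have key : (∀ i < k, E (tl u i)) ↔ (∀ i < k + 1, E (u i)) := by
        constructor
        · intro hh i hi
          rcases i with _ | i
          · exact h1
          · exact hh i (by omega)
        · intro hh i hi
          exact hh (i + 1) (by omega)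
      simp only [key]
      rfl
    · rw [if_neg h1, if_neg]
      intro h3
      exact h1 (h3 0 (by omega))

theorem c_coord (hκE : ∀ x, E (κ x) ↔ E x) (hκ2 : ∀ x, κ (κ x) = x) (k : ℕ) (u : ℕ → A) :
    c hκE hκ2 u k = if (∀ i < k, E (u i)) then κ (u k) else u k :=
  crun_eq k u

theorem mu_congr {u v : ℕ → A} (a : ℕ) : ∀ k, (∀ i, k ≤ i → u i = v i) →
    mu E I J1 J2 u k a = mu E I J1 J2 v k a := by
  induction a using Nat.strong_induction_on with
  | _ a ih =>
    intro k hk
    rcases Nat.even_or_odd' a with ⟨d, rfl | rfl⟩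
    · rcases Nat.eq_zero_or_pos d with rfl | hd
      · rw [Nat.mul_zero, mu_zero, mu_zero]
      · rw [mu_even, mu_even]
        exact ih d (by omega) (k + 1) (fun i hi => hk i (by omega))
    · rw [mu_odd, mu_odd, hk k le_rfl, ih d (by omega) (k + 1) (fun i hi => hk i (by omega))]

/-- `mu` is invariant under `c`. -/
theorem mu_c (hκE : ∀ x, E (κ x) ↔ E x) (hκ2 : ∀ x, κ (κ x) = x)
    (hκI : ∀ x, I (κ x) ↔ I x) (hκJ1 : ∀ x, J1 (κ x) ↔ J1 x) (hκJ2 : ∀ x, J2 (κ x) ↔ J2 x)
    (u : ℕ → A) (a : ℕ) : ∀ k,
    mu E I J1 J2 (c hκE hκ2 u) k a = mu E I J1 J2 u k a := by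
  induction a using Nat.strong_induction_on with
  | _ a ih =>
    intro k
    rcases Nat.even_or_odd' a with ⟨d, rfl | rfl⟩
    · rcases Nat.eq_zero_or_pos d with rfl | hd
      · rw [Nat.mul_zero, mu_zero, mu_zero]
      · rw [mu_even, mu_even]
        exact ih d (by omega) (k + 1)
    · rw [mu_odd, mu_odd, ih d (by omega) (k + 1), c_coord]
      split_ifs
      · simp only [ff, fR, fL, hκE, hκI, hκJ1, hκJ2]
      · rfl

/-- How `mu` can change under `b h`. -/
theorem mu_b (hEI : ∀ x, E x → ¬ I x) (h : Perm A) (u : ℕ → A) (a : ℕ) : ∀ k,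
    mu E I J1 J2 (b E I h u) k a ≠ mu E I J1 J2 u k a →
    ∃ j, (∀ i < j, E (u i)) ∧ I (u j) ∧ k ≤ j + 1 ∧ (a % 2 = 1 → j + 1 = k) := by
  induction a using Nat.strong_induction_on with
  | _ a ih =>
    intro k hne
    rcases Nat.even_or_odd' a with ⟨d, rfl | rfl⟩
    · rcases Nat.eq_zero_or_pos d with rfl | hd
      · rw [Nat.mul_zero, mu_zero, mu_zero] at hne
        exact absurd rfl hne
      · rw [mu_even, mu_even] at hne
        obtain ⟨j, h1, h2, h3, h4⟩ := ih d (by omega) (k + 1) hne
        exact ⟨j, h1, h2, by omega, by omega⟩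
    · rw [mu_odd, mu_odd] at hne
      by_cases hk : b E I h u k = u k
      · rw [hk] at hne
        have hne2 : mu E I J1 J2 (b E I h u) (k + 1) d ≠ mu E I J1 J2 u (k + 1) d := by
          intro he
          rw [he] at hne
          exact hne rfl
        obtain ⟨j, h1, h2, h3, h4⟩ := ih d (by omega) (k + 1) hne2
        exfalso
        by_cases hd : d % 2 = 1
        · have hj : j = k := by have := h4 hd; omega
          subst hj
          apply hne
          have hE : ¬ E (u j) := fun hE => hEI _ hE h2
          simp [ff, fL, hd, hE]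
        · apply hne
          rcases Nat.lt_or_ge k j with hlt | hge
          · have hE : E (u k) := h1 k hlt
            simp [ff, fR, hd, hE]
          · have hj : j = k := by omega
            subst hj
            have hE : ¬ E (u j) := fun hE => hEI _ hE h2
            simp [ff, fR, hd, hE, h2]
      · rcases k with _ | k
        · exact absurd (b_coord_zero h u) hk
        · rw [b_coord hEI] at hk
          by_cases hc : (∀ i < k, E (u i)) ∧ I (u k)
          · exact ⟨k, hc.1, hc.2, le_rfl, fun _ => rfl⟩
          · rw [if_neg hc] at hk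
            exact absurd rfl hk

end Coord

end E59
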