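import Mathlib

set_option autoImplicit false

/-! From a labelled family of points with local rules to a one-sided subshift. -/

namespace E59

open Equiv

section

variable {U Lb : Type} {N : ℕ} (e : Lb ≃ Fin N) (label : U → ℕ → Lb)

/-- The point with position `n` at the origin. -/
def pt (n : ℕ) (u : U) : ℕ → Fin N := fun i => e (label u (n - i))

/-- The subshift. -/
def XX : Set (ℕ → Fin N) := closure {x | ∃ n u, x = pt e label n u}

theorem pt_mem (n : ℕ) (u : U) : pt e label n u ∈ XX e label :=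
  subset_closure ⟨n, u, rfl⟩

/-- The same point as an element of the subshift. -/
def ptX (n : ℕ) (u : U) : XX e label := ⟨pt e label n u, pt_mem e label n u⟩

theorem shift_pt (n : ℕ) (u : U) :
    (fun i => pt e label n u (i + 1)) = pt e label (n - 1) u := by
  funext i
  unfold pt
  congr 2
  omega

theorem shift_mem (x : ℕ → Fin N) (hx : x ∈ XX e label) :
    (fun n => x (n + 1)) ∈ XX e label := by
  have hc : Continuous (fun (y : ℕ → Fin N) (n : ℕ) => y (n + 1)) :=
    continuous_pi fun i => continuous_apply (i + 1)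
  refine map_mem_closure hc hx ?_
  rintro y ⟨n, u, rfl⟩
  exact ⟨n - 1, u, shift_pt e label n u⟩

/-- The sliding block map of a local rule. -/
def blk (F : Lb → Lb → Lb → Lb → Lb) (x : ℕ → Fin N) : ℕ → Fin N := fun i =>
  e (F (e.symm (x i)) (e.symm (x (i + 1))) (e.symm (x (i + 2))) (e.symm (x (i + 3))))

theorem blk_cont (F : Lb → Lb → Lb → Lb → Lb) : Continuous (blk e F) := by
  refine continuous_pi fun i => ?_
  have h1 : Continuous (fun x : ℕ → Fin N => (x i, x (i + 1), x (i + 2), x (i + 3))) :=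
    (continuous_apply i).prodMk ((continuous_apply (i + 1)).prodMk
      ((continuous_apply (i + 2)).prodMk (continuous_apply (i + 3))))
  have h2 : Continuous (fun y : Fin N × Fin N × Fin N × Fin N =>
      e (F (e.symm y.1) (e.symm y.2.1) (e.symm y.2.2.1) (e.symm y.2.2.2))) :=
    continuous_of_discreteTopology
  exact h2.comp h1

theorem blk_pt (F : Lb → Lb → Lb → Lb → Lb) (φ : Perm U)
    (h : ∀ u q, label (φ u) q = F (label u q) (label u (q - 1)) (label u (q - 2))
      (label u (q - 3))) (n : ℕ) (u : U) :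
    blk e F (pt e label n u) = pt e label n (φ u) := by
  funext i
  unfold blk pt
  simp only [Equiv.symm_apply_apply]
  rw [h]
  have e1 : n - (i + 1) = n - i - 1 := by omega
  have e2 : n - (i + 2) = n - i - 2 := by omega
  have e3 : n - (i + 3) = n - i - 3 := by omega
  rw [e1, e2, e3]

theorem blk_mem (F : Lb → Lb → Lb → Lb → Lb) (φ : Perm U)
    (h : ∀ u q, label (φ u) q = F (label u q) (label u (q - 1)) (label u (q - 2))
      (label u (q - 3))) (x : ℕ → Fin N) (hx : x ∈ XX e label) :
    blk e F x ∈ XX e label := by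
  refine map_mem_closure (blk_cont e F) hx ?_
  rintro y ⟨n, u, rfl⟩
  exact ⟨n, φ u, blk_pt e label F φ h n u⟩

/-- `p` is an automorphism of the subshift which acts on the points as `φ`. -/
def IsLift (φ : Perm U) (p : Perm (XX e label)) : Prop :=
  Continuous p ∧
  (∀ x y : XX e label, ((y : ℕ → Fin N) = fun n => (x : ℕ → Fin N) (n + 1)) →
    ((p y : XX e label) : ℕ → Fin N) = fun n => ((p x : XX e label) : ℕ → Fin N) (n + 1)) ∧
  ∀ n u, p (ptX e label n u) = ptX e label n (φ u)

theorem dense_pt : Dense {x : XX e label | ∃ n u, x = ptX e label n u} := by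
  rw [Subtype.dense_iff]
  refine closure_mono ?_
  rintro x ⟨n, u, rfl⟩
  exact ⟨ptX e label n u, ⟨n, u, rfl⟩, rfl⟩

variable {e label}

theorem IsLift.unique {φ : Perm U} {p p' : Perm (XX e label)} (h : IsLift e label φ p)
    (h' : IsLift e label φ p') : p = p' := by
  have : (p : XX e label → XX e label) = p' := by
    refine Continuous.ext_on (dense_pt e label) h.1 h'.1 ?_
    rintro x ⟨n, u, rfl⟩
    rw [h.2.2, h'.2.2]
  exact DFunLike.coe_injective this

theorem IsLift.one : IsLift e label 1 1 := by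
  refine ⟨continuous_id, ?_, ?_⟩
  · intro x y h
    simpa using h
  · intro n u
    rfl

theorem IsLift.mul {φ ψ : Perm U} {p p' : Perm (XX e label)} (h : IsLift e label φ p)
    (h' : IsLift e label ψ p') : IsLift e label (φ * ψ) (p * p') := by
  refine ⟨h.1.comp h'.1, ?_, ?_⟩
  · intro x y hxy
    exact h.2.1 (p' x) (p' y) (h'.2.1 x y hxy)
  · intro n u
    rw [Perm.mul_apply, h'.2.2, h.2.2]
    rfl

theorem IsLift.exists (φ : Perm U) (F F' : Lb → Lb → Lb → Lb → Lb)
    (h : ∀ u q, label (φ u) q = F (label u q) (label u (q - 1)) (label u (q - 2))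
      (label u (q - 3)))
    (h' : ∀ u q, label (φ⁻¹ u) q = F' (label u q) (label u (q - 1)) (label u (q - 2))
      (label u (q - 3))) : ∃ p, IsLift e label φ p := by
  have key : ∀ (φ : Perm U) (F F' : Lb → Lb → Lb → Lb → Lb)
      (h : ∀ u q, label (φ u) q = F (label u q) (label u (q - 1)) (label u (q - 2))
        (label u (q - 3)))
      (h' : ∀ u q, label (φ⁻¹ u) q = F' (label u q) (label u (q - 1)) (label u (q - 2))
        (label u (q - 3))), ∀ x ∈ XX e label, blk e F' (blk e F x) = x := by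
    intro φ F F' h h' x hx
    have hcl : IsClosed {x | blk e F' (blk e F x) = x} :=
      isClosed_eq ((blk_cont e F').comp (blk_cont e F)) continuous_id
    have hsub : {x | ∃ n u, x = pt e label n u} ⊆ {x | blk e F' (blk e F x) = x} := by
      rintro x ⟨n, u, rfl⟩
      change blk e F' (blk e F _) = _
      have h0 : φ⁻¹ (φ u) = u := φ.symm_apply_apply u
      rw [blk_pt e label F φ h, blk_pt e label F' φ⁻¹ h', h0]
    exact hcl.closure_subset_iff.2 hsub hx
  have h'' : ∀ u q, label ((φ⁻¹)⁻¹ u) q = F (label u q) (label u (q - 1)) (label u (q - 2))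
      (label u (q - 3)) := by
    rw [inv_inv]; exact h
  refine ⟨{ toFun := fun x => ⟨blk e F x, blk_mem e label F φ h x x.2⟩
            invFun := fun x => ⟨blk e F' x, blk_mem e label F' φ⁻¹ h' x x.2⟩
            left_inv := fun x => Subtype.ext (key φ F F' h h' x x.2)
            right_inv := fun x => Subtype.ext (key φ⁻¹ F' F h' h'' x x.2) }, ?_, ?_, ?_⟩
  · exact Continuous.subtype_mk ((blk_cont e F).comp continuous_subtype_val) _
  · intro x y hxy
    change blk e F y = fun n => blk e F x (n + 1)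
    rw [hxy]
    rfl
  · intro n u
    exact Subtype.ext (blk_pt e label F φ h n u)

theorem IsLift.exists_list {S : Set (Perm U)} (hS : ∀ s ∈ S, ∃ p, IsLift e label s p)
    (l : List (Perm U)) (hl : ∀ s ∈ l, s ∈ S) : ∃ p, IsLift e label l.prod p := by
  induction l with
  | nil => exact ⟨1, IsLift.one⟩
  | cons a l ih =>
    obtain ⟨p, hp⟩ := hS a (hl a (by simp))
    obtain ⟨p', hp'⟩ := ih (fun s hs => hl s (by simp [hs]))
    exact ⟨p * p', by rw [List.prod_cons]; exact hp.mul hp'⟩

end

/-- The transfer theorem. -/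
theorem transfer {U Lb : Type} [Finite Lb] (label : U → ℕ → Lb)
    (hinj : ∀ u v, (∀ q, label u q = label v q) → u = v)
    (S : Set (Perm U)) (hSfin : S.Finite) (hSinv : ∀ s ∈ S, s⁻¹ ∈ S)
    (hrule : ∀ s ∈ S, ∃ F : Lb → Lb → Lb → Lb → Lb, ∀ u q, label (s u) q =
      F (label u q) (label u (q - 1)) (label u (q - 2)) (label u (q - 3)))
    (g : Perm U) (hgS : ∃ l : List (Perm U), (∀ s ∈ l, s ∈ S) ∧ l.prod = g)
    (hginf : ∀ n, 0 < n → g ^ n ≠ 1)
    (hsub : ∀ ε : ℝ, 0 < ε → ∃ N : ℕ, ∀ n : ℕ, N ≤ n → ∃ l : List (Perm U),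
      (l.length : ℝ) ≤ ε * n ∧ (∀ s ∈ l, s ∈ S) ∧ l.prod = g ^ n) :
    ∃ (k : ℕ) (X : Set (ℕ → Fin k)), IsClosed X ∧
      (∀ x ∈ X, (fun n => x (n + 1)) ∈ X) ∧
      ∃ (S : Finset (Equiv.Perm X)) (g : Equiv.Perm X), g ∈ S ∧
        (∀ h ∈ S, Continuous (h : X → X) ∧
          ∀ x y : X, ((y : ℕ → Fin k) = fun n => (x : ℕ → Fin k) (n + 1)) →
            ((h y : X) : ℕ → Fin k) = fun n => ((h x : X) : ℕ → Fin k) (n + 1)) ∧
        ¬ IsOfFinOrder g ∧
        ∀ ε : ℝ, 0 < ε → ∃ N : ℕ, ∀ n : ℕ, N ≤ n →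
          ∃ l : List (Equiv.Perm X), (l.length : ℝ) ≤ ε * n ∧
            (∀ h ∈ l, h ∈ S ∨ h⁻¹ ∈ S) ∧ l.prod = g ^ n := by
  classical
  obtain ⟨N, ⟨e⟩⟩ := Finite.exists_equiv_fin Lb
  have hlift : ∀ s ∈ S, ∃ p, IsLift e label s p := by
    intro s hs
    obtain ⟨F, hF⟩ := hrule s hs
    obtain ⟨F', hF'⟩ := hrule s⁻¹ (hSinv s hs)
    exact IsLift.exists s F F' hF hF'
  obtain ⟨lg, hlg, hlgp⟩ := hgS
  obtain ⟨ghat, hghat⟩ := IsLift.exists_list hlift lg hlg
  rw [hlgp] at hghat
  have hpow : ∀ n : ℕ, IsLift e label (g ^ n) (ghat ^ n) := by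
    intro n
    induction n with
    | zero => simpa using IsLift.one
    | succ n ih => rw [pow_succ, pow_succ]; exact ih.mul hghat
  choose! lft hlft using hlift
  refine ⟨N, XX e label, isClosed_closure, shift_mem e label,
    insert ghat (hSfin.toFinset.image lft), ghat, by simp, ?_, ?_, ?_⟩
  · intro h hh
    rw [Finset.mem_insert, Finset.mem_image] at hh
    rcases hh with rfl | ⟨s, hs, rfl⟩
    · exact ⟨hghat.1, hghat.2.1⟩
    · have := hlft s ((Set.Finite.mem_toFinset hSfin).1 hs)
      exact ⟨this.1, this.2.1⟩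
  · intro hfin
    rw [isOfFinOrder_iff_pow_eq_one] at hfin
    obtain ⟨n, hn, hgn⟩ := hfin
    apply hginf n hn
    have h1 := hpow n
    rw [hgn] at h1
    ext u : 1
    apply hinj
    intro q
    have h2 := h1.2.2 q u
    have h3 : pt e label q u 0 = pt e label q ((g ^ n) u) 0 := by
      have h4 := congrArg Subtype.val h2
      exact congrFun h4 0
    unfold pt at h3
    have h5 := e.injective h3
    rw [Perm.one_apply]
    simpa using h5.symm
  · intro ε hε
    obtain ⟨N0, hN0⟩ := hsub ε hε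
    refine ⟨N0, fun n hn => ?_⟩
    obtain ⟨l, hl1, hl2, hl3⟩ := hN0 n hn
    have key : ∀ l : List (Perm U), (∀ s ∈ l, s ∈ S) →
        IsLift e label l.prod (l.map lft).prod := by
      intro l
      induction l with
      | nil => intro _; exact IsLift.one
      | cons a l ih =>
        intro h
        rw [List.prod_cons, List.map_cons, List.prod_cons]
        exact (hlft a (h a (by simp))).mul (ih fun s hs => h s (by simp [hs]))
    refine ⟨l.map lft, by simpa using hl1, ?_, ?_⟩
    · intro h hh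
      rw [List.mem_map] at hh
      obtain ⟨s, hs, rfl⟩ := hh
      left
      rw [Finset.mem_insert, Finset.mem_image]
      exact Or.inr ⟨s, (Set.Finite.mem_toFinset hSfin).2 (hl2 s hs), rfl⟩
    · have h1 := key l hl2
      rw [hl3] at h1
      exact h1.unique (hpow n)

end E59
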