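import Pool.Agent.Lib.MP_e59edf_an.Concrete
import Pool.Agent.Lib.MP_e59edf_an.Lift

set_option autoImplicit false

/-! Assembly. -/

namespace E59

open Equiv

theorem kE (x : AA) : EE (kap x) ↔ EE x := (kap_facts x.1 x.2).1

theorem k2 (x : AA) : kap (kap x) = x := kf_kf x.1 x.2

theorem kI (x : AA) : II (kap x) ↔ II x := (kap_facts x.1 x.2).2.1

/-- The generators. -/
abbrev GS : Set (Perm (ℕ → AA)) := Gen (I := II) kE k2 HH

/-- The distorted element. -/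
abbrev G0 : Perm (ℕ → AA) := gg (I := II) kE k2 hg

/-- The labels. -/
abbrev LL : (ℕ → AA) → ℕ → Lab AA := label EE II JJ1 JJ2 Kf (0, 0)

theorem GS_rule : ∀ s ∈ GS, ∃ F : Lab AA → Lab AA → Lab AA → Lab AA → Lab AA,
    ∀ u q, LL (s u) q = F (LL u q) (LL u (q - 1)) (LL u (q - 2)) (LL u (q - 3)) := by
  rintro s (⟨h, hh, rfl⟩ | rfl | rfl | ⟨h, hh, rfl⟩)
  · exact ⟨FR EE II JJ1 JJ2 Kf h, fun u q => label_R h u q⟩
  · exact ⟨FR EE II JJ1 JJ2 Kf kap, fun u q => label_R kap u q⟩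
  · exact ⟨FC kap, fun u q => label_c kE k2 kI
      (fun x => (kap_facts x.1 x.2).2.2.1) (fun x => (kap_facts x.1 x.2).2.2.2.1)
      (fun x => (kap_facts x.1 x.2).2.2.2.2.1) (fun x => (kap_facts x.1 x.2).2.2.2.2.2.1)
      (fun x => (kap_facts x.1 x.2).2.2.2.2.2.2.1)
      (fun x => (kap_facts x.1 x.2).2.2.2.2.2.2.2.1)
      (fun x => (kap_facts x.1 x.2).2.2.2.2.2.2.2.2) u q⟩
  · exact ⟨FB EE II JJ1 JJ2 h, fun u q => label_b EE_II (fun x hx => hx.2) (fun x hx => hx.2)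
      h (HH_K h hh) u q⟩

theorem hF0 (x : AA) (h : FF0 x) : x = qq 0 ∨ ∃ t, 177 < t ∧ t < 2 * 177 ∧ x = qq t := by
  rcases (FF_facts x.1 x.2).1 h with h1 | ⟨h1, h2, h3⟩
  · exact Or.inl h1
  · exact Or.inr ⟨_, h1, h2, h3⟩

theorem hF1 (x : AA) (h : FF1 x) : ∃ t, 1 ≤ t ∧ t ≤ 177 ∧ x = qq t :=
  ⟨x.1.val + 1, by omega, by have := x.1.isLt; omega, (FF_facts x.1 x.2).2.1 h⟩

theorem hFo (x : AA) (h0 : ¬ FF0 x) (h1 : ¬ FF1 x) :
    (hg * kap) ((hg * kap) x) = x ∧ (EE ((hg * kap) x) ↔ EE x) ∧ (II ((hg * kap) x) ↔ II x) :=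
  (FF_facts x.1 x.2).2.2.1 h0 h1

theorem hgg (x : AA) : hg (hg x) = x := (FF_facts x.1 x.2).2.2.2.2.2

theorem G0_pow (n : ℕ) : G0 ^ (354 * n) =
    D (fun x => if FF0 x then G0 ^ n
      else if FF1 x then R hg * G0 ^ n * (R hg)⁻¹ else 1) :=
  gg_pow kI hgg 177 (by omega) qq qq_step (by decide +kernel) (by decide +kernel)
    (fun t h1 h2 => qq_facts1 t h2 h1) (by decide +kernel)
    (fun t h1 h2 => qq_facts2 t h2 h1) FF0 FF1 hF0 hF1 hFo n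

theorem G0_ne_one (n : ℕ) (hn : 0 < n) : G0 ^ n ≠ 1 :=
  gg_ne_one kI hgg 177 (by omega) qq qq_step (by decide +kernel) (by decide +kernel)
    (fun t h1 h2 => qq_facts1 t h2 h1) (by decide +kernel)
    (fun t h1 h2 => qq_facts2 t h2 h1) FF0 FF1 hF0 hF1 hFo (by decide +kernel)
    (fun t h1 h2 => qq_facts3 t h2 h1) n hn

theorem w1_inv_facts (x : AA) : EE (w0⁻¹ x) ↔ (FF0 x ∧ Kf x = 0) := (w_facts x.1 x.2).1

theorem hg_inv_K (x : AA) : Kf (hg⁻¹ x) = Kf x := HH_K _ (HH_inv _ hg_mem) x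

theorem G0_pow' (n : ℕ) : G0 ^ (354 * n) =
      (R w0 * T EE (G0 ^ n) * (R w0)⁻¹) * (R w1 * T EE (G0 ^ n) * (R w1)⁻¹) *
      (R w2 * T EE (G0 ^ n) * (R w2)⁻¹) *
      ((R hg * R w0 * T EE (R hg)) * T EE (G0 ^ n) * (R hg * R w0 * T EE (R hg))⁻¹) *
      ((R hg * R w1 * T EE (R hg)) * T EE (G0 ^ n) * (R hg * R w1 * T EE (R hg))⁻¹) *
      ((R hg * R w2 * T EE (R hg)) * T EE (G0 ^ n) * (R hg * R w2 * T EE (R hg))⁻¹) := by
  rw [G0_pow]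
  exact D_split FF0 FF1 Kf (fun x => (FF_facts x.1 x.2).2.2.2.1) hg
    (fun x => (FF_facts x.1 x.2).2.2.2.2.1) hg_inv_K w0 w1 w2
    (fun x => (w_facts x.1 x.2).1) (fun x => (w_facts x.1 x.2).2.1)
    (fun x => (w_facts x.1 x.2).2.2) (G0 ^ n)

theorem tau_k : tau * kap * tau * kap * tau = kap := by
  ext1 x
  exact (tau_facts x.1 x.2).2

theorem GS_T : ∀ s ∈ GS, Wd GS 58 (T EE s) :=
  Wd_T EE_II HH_inv HH_comm sig sig_mem (fun x => (sig_facts x.1 x.2).1)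
    (fun x => (sig_facts x.1 x.2).2.1) (fun x => (sig_facts x.1 x.2).2.2) hA hB hC hA_mem hB_mem
    hC_mem (fun x => om_facts x.1 x.2) tau tau_mem (fun x => (tau_facts x.1 x.2).1) tau_k

theorem GS_inv : ∀ s ∈ GS, s⁻¹ ∈ GS := Gen_inv HH_inv

theorem WR {h : Perm AA} (hh : h ∈ HH) : Wd GS 1 (R h) := Wd.of_mem (Gen_R hh)

theorem Wk : Wd GS 1 (R kap) := Wd.of_mem Gen_k

theorem Ww0 : Wd GS 5 (R w0) := (WR w0_mem).mono (by omega)

theorem Ww1 : Wd GS 5 (R w1) := by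
  have : R w1 = R hB' * R kap * R hA := by
    unfold w1
    rw [map_mul, map_mul]
  rw [this]
  exact (((WR hB'_mem).mul Wk).mul (WR hA_mem)).mono (by omega)

theorem Ww2 : Wd GS 5 (R w2) := by
  have : R w2 = R hC' * R kap * R hB * R kap * R hA := by
    unfold w2
    rw [map_mul, map_mul, map_mul, map_mul]
  rw [this]
  exact ((((WR hC'_mem).mul Wk).mul (WR hB_mem)).mul Wk).mul (WR hA_mem)

theorem Wv {w : Perm (ℕ → AA)} (hw : Wd GS 5 w) : Wd GS 64 (R hg * w * T EE (R hg)) := by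
  have h1 : Wd GS 58 (T EE (R hg)) := GS_T _ (Gen_R hg_mem)
  exact (((WR hg_mem).mul hw).mul h1)

theorem G0_word : Wd GS 3 G0 :=
  ((WR hg_mem).mul (Wd.of_mem Gen_c)).mul (Wd.of_mem (Gen_b hg_mem))

theorem G0_len (j : ℕ) : Wd GS ((3 + 12 * 64) * 348 ^ j) (G0 ^ (354 ^ j)) := by
  obtain ⟨a, ha, hw⟩ := Wd.powers GS_inv (T EE) (C := 58) (by omega) GS_T (g := G0) (M := 354)
    (V := 64) (l := 3) G0_word _ _ _ _ _ _ (Ww0.mono (by omega)) (Ww1.mono (by omega))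
    (Ww2.mono (by omega)) (Wv Ww0) (Wv Ww1) (Wv Ww2) G0_pow' j
  have e : 6 * 58 = 348 := rfl
  rw [e] at ha
  exact hw.mono (by omega)

theorem main :
    ∃ (k : ℕ) (X : Set (ℕ → Fin k)), IsClosed X ∧
      (∀ x ∈ X, (fun n => x (n + 1)) ∈ X) ∧
      ∃ (S : Finset (Equiv.Perm X)) (g : Equiv.Perm X), g ∈ S ∧
        (∀ h ∈ S, Continuous (h : X → X) ∧
          ∀ x y : X, ((y : ℕ → Fin k) = fun n => (x : ℕ → Fin k) (n + 1)) →
            ((h y : X) : ℕ → Fin k) = fun n => ((h x : X) : ℕ → Fin k) (n + 1)) ∧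
        ¬ IsOfFinOrder g ∧
        ∀ ε : ℝ, 0 < ε → ∃ N : ℕ, ∀ n : ℕ, N ≤ n →
          ∃ l : List (Equiv.Perm X), (l.length : ℝ) ≤ ε * n ∧
            (∀ h ∈ l, h ∈ S ∨ h⁻¹ ∈ S) ∧ l.prod = g ^ n := by
  refine transfer LL (fun u v h => label_inj h) GS Gen_finite GS_inv GS_rule G0 ?_ G0_ne_one ?_
  · obtain ⟨l, _, h2, h3⟩ := G0_word
    exact ⟨l, h2, h3⟩
  · exact fun ε hε => sublinear (M := 354) (K := 3 + 12 * 64) (B := 348) (by omega) G0_len ε hε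

end E59
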