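import Pool.Agent.Lib.MP_e59edf_an.Labels

set_option autoImplicit false

/-! Labels of positions and local rules. -/

namespace E59

open Equiv

/-- A label. -/
structure Lab (A : Type) where
  kind : Fin 5
  typ : Bool
  x : A
  st : Fin 3
  s : Sg

theorem Lab.ext' {A : Type} {l m : Lab A} (h1 : l.kind = m.kind) (h2 : l.typ = m.typ)
    (h3 : l.x = m.x) (h4 : l.st = m.st) (h5 : l.s = m.s) : l = m := by
  cases l; cases m; cases h1; cases h2; cases h3; cases h4; cases h5; rfl

instance {A : Type} [Finite A] : Finite (Lab A) := by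
  let f : Lab A → Fin 5 × Bool × A × Fin 3 × Sg := fun l => (l.kind, l.typ, l.x, l.st, l.s)
  have hf : Function.Injective f := by
    intro l m h
    simp only [f, Prod.mk.injEq] at h
    obtain ⟨h1, h2, h3, h4, h5⟩ := h
    exact Lab.ext' h1 h2 h3 h4 h5
  exact Finite.of_injective f hf

/-- Decomposition of a position as `2 ^ k * (2 * a + 1)`. -/
def dec (q : ℕ) : ℕ × ℕ :=
  if q % 2 = 1 then (0, q / 2)
  else if q = 0 then (0, 0)
  else ((dec (q / 2)).1 + 1, (dec (q / 2)).2)
termination_by q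
decreasing_by all_goals omega

theorem dec_pow (k a : ℕ) : dec (2 ^ k * (2 * a + 1)) = (k, a) := by
  induction k with
  | zero =>
    rw [dec, if_pos (by omega)]
    congr 1
    omega
  | succ k ih =>
    have hpos : 0 < 2 ^ k * (2 * a + 1) := by positivity
    have e : 2 ^ (k + 1) * (2 * a + 1) = 2 * (2 ^ k * (2 * a + 1)) := by ring
    rw [dec, if_neg (by omega), if_neg (by omega), e, Nat.mul_div_cancel_left _ (by omega), ih]

theorem exists_dec (q : ℕ) (hq : q ≠ 0) : ∃ k a, q = 2 ^ k * (2 * a + 1) := by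
  obtain ⟨k, m, ⟨a, rfl⟩, h⟩ := Nat.exists_eq_two_pow_mul_odd hq
  exact ⟨k, a, h⟩

variable {A : Type}

section Defs

variable (E I J1 J2 : A → Prop) [DecidablePred E] [DecidablePred I] [DecidablePred J1]
  [DecidablePred J2] (K : A → Fin 3) (d : A)

def mask (k : Fin 3) (m : Sg) : Sg := (if 1 ≤ k then m.1 else 0, if 2 ≤ k then m.2 else 0)

def lab (u : ℕ → A) : ℕ → ℕ → Lab A
  | 0, a => ⟨1, false, d, 0, mu E I J1 J2 u 0 a⟩
  | 1, a => ⟨2, decide (a % 2 = 1), u 0, 0, (0, 0)⟩
  | k + 2, a => ⟨if k = 0 then 3 else 4, decide (a % 2 = 1), u (k + 1), K (u k),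
      mask (K (u k)) (mu E I J1 J2 u (k + 2) a)⟩

def label (u : ℕ → A) (q : ℕ) : Lab A :=
  if q = 0 then ⟨0, false, d, 0, (0, 0)⟩ else lab E I J1 J2 K d u (dec q).1 (dec q).2

theorem label_zero (u : ℕ → A) : label E I J1 J2 K d u 0 = ⟨0, false, d, 0, (0, 0)⟩ := by
  rw [label, if_pos rfl]

theorem label_pow (u : ℕ → A) (k a : ℕ) :
    label E I J1 J2 K d u (2 ^ k * (2 * a + 1)) = lab E I J1 J2 K d u k a := by
  rw [label, if_neg (by positivity), dec_pow]

theorem label_of_eq (u : ℕ → A) {q : ℕ} (k a : ℕ) (h : q = 2 ^ k * (2 * a + 1)) :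
    label E I J1 J2 K d u q = lab E I J1 J2 K d u k a := by
  rw [h, label_pow]

/-- Local rule for `R r`. -/
def FR (r : Perm A) (l0 l1 l2 l3 : Lab A) : Lab A :=
  if l0.kind = 2 then { l0 with x := r l0.x }
  else if l0.kind = 3 then { l0 with st := K (r l2.x), s := mask (K (r l2.x)) l3.s }
  else if l0.kind = 1 ∧ l1.kind = 2 then { l0 with s := ff E I J1 J2 l1.typ (r l1.x) l2.s }
  else l0

/-- Local rule for `b h`. -/
def FB (h : Perm A) (l0 l1 l2 _l3 : Lab A) : Lab A :=
  if 3 ≤ l0.kind ∧ l1.s = (0, 2) then { l0 with x := h l0.x }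
  else if l0.kind = 1 ∧ 3 ≤ l1.kind ∧ l2.s = (0, 2) then
    { l0 with s := ff E I J1 J2 l1.typ (h l1.x) l1.s }
  else l0

/-- Local rule for `c`. -/
def FC (κ : Perm A) (l0 l1 _l2 _l3 : Lab A) : Lab A :=
  if l0.kind = 2 then { l0 with x := κ l0.x }
  else if 3 ≤ l0.kind then
    if l1.s = (0, 1) then { l0 with x := κ l0.x }
    else if l1.s.1 = 1 then
      { l0 with st := 1 - l0.st, s := if l0.st = 0 then (l1.s.2, 0) else (0, 0) }
    else if l1.s.1 = 2 then
      { l0 with st := 0 - l0.st, s := if l0.st = 1 then (l0.s.1, l1.s.2) else (l0.s.1, 0) }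
    else l0
  else l0

variable {E I J1 J2 K d}

theorem label_R (r : Perm A) (u : ℕ → A) (q : ℕ) :
    label E I J1 J2 K d (R r u) q =
      FR E I J1 J2 K r (label E I J1 J2 K d u q) (label E I J1 J2 K d u (q - 1))
        (label E I J1 J2 K d u (q - 2)) (label E I J1 J2 K d u (q - 3)) := by
  rcases Nat.eq_zero_or_pos q with rfl | hq
  · simp [label_zero, FR]
  obtain ⟨k, a, rfl⟩ := exists_dec q (by omega)
  have htail : ∀ i, 1 ≤ i → (R r u) i = u i := by
    intro i hi
    rcases i with _ | i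
    · omega
    · rfl
  have h0 : (R r u) 0 = r (u 0) := rfl
  rcases k with _ | _ | _ | k
  · -- level 0
    rw [label_pow, label_pow]
    rcases Nat.eq_zero_or_pos a with rfl | ha
    · simp [lab, FR, mu_zero, label_zero]
    · obtain ⟨k, a', rfl⟩ := exists_dec a (by omega)
      have e1 : 2 ^ 0 * (2 * (2 ^ k * (2 * a' + 1)) + 1) - 1 = 2 ^ (k + 1) * (2 * a' + 1) := by
        rw [pow_succ, pow_zero]; ring_nf; omega
      rw [label_of_eq E I J1 J2 K d u (k + 1) a' e1]
      rcases k with _ | k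
      · have e2 : 2 ^ 0 * (2 * (2 ^ 0 * (2 * a' + 1)) + 1) - 2 = 2 ^ 0 * (2 * (2 * a') + 1) := by
          omega
        rw [label_of_eq E I J1 J2 K d u 0 (2 * a') e2]
        have e3 : 2 ^ 0 * (2 * a' + 1) = 2 * a' + 1 := by omega
        simp only [lab, FR, e3, mu_odd, mu_even]
        rw [h0, mu_congr a' 1 (fun i hi => htail i (by omega))]
        simp
      · have : (lab E I J1 J2 K d u (k + 1 + 1) a').kind ≠ 2 := by
          simp only [lab]
          split_ifs <;> decide
        have e4 : mu E I J1 J2 (R r u) 0 (2 ^ (k + 1) * (2 * a' + 1)) =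
            mu E I J1 J2 u 0 (2 ^ (k + 1) * (2 * a' + 1)) := by
          rw [mu_pow, mu_pow]
          exact mu_congr _ _ (fun i hi => htail i (by omega))
        simp only [FR, this, and_false, if_false]
        simp [lab, e4]
  · -- level 1
    rw [label_pow, label_pow]
    simp [lab, FR, h0]
  · -- level 2
    have e2 : 2 ^ (0 + 1 + 1) * (2 * a + 1) - 2 = 2 ^ 1 * (2 * (2 * a) + 1) := by omega
    have e3 : 2 ^ (0 + 1 + 1) * (2 * a + 1) - 3 = 2 ^ 0 * (2 * (2 ^ 2 * a) + 1) := by omega
    rw [label_pow, label_pow, label_of_eq E I J1 J2 K d u _ _ e2,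
      label_of_eq E I J1 J2 K d u _ _ e3]
    simp only [lab, FR, mu_pow, h0, htail (0 + 1) (by omega)]
    rw [mu_congr a 2 (fun i hi => htail i (by omega))]
    simp
  · -- level at least 3
    rw [label_pow, label_pow]
    have e5 : mu E I J1 J2 (R r u) (k + 1 + 2) a = mu E I J1 J2 u (k + 1 + 2) a :=
      mu_congr _ _ (fun i hi => htail i (by omega))
    simp [lab, FR, e5, htail]

theorem fR_eq_SI {x : A} {m : Sg} (hEI : ∀ x, E x → ¬ I x) :
    fR E I J1 J2 x m = (0, 2) ↔ I x := by
  unfold fR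
  by_cases h1 : E x
  · simp [h1, hEI x h1]
  · by_cases h2 : I x
    · simp [h1, h2]
    · by_cases h3 : J1 x
      · simp [h1, h2, h3]
      · by_cases h4 : J2 x
        · simp [h1, h2, h3, h4]
        · simp [h1, h2, h3, h4]

theorem label_left (u : ℕ → A) (k a : ℕ) :
    label E I J1 J2 K d u (2 ^ (k + 1 + 1) * (2 * a + 1) - 1) =
      ⟨1, false, d, 0, if ∀ i < k, E (u i) then
        fR E I J1 J2 (u k) (mu E I J1 J2 u (k + 2) a) else (0, 0)⟩ := by
  have e : 2 ^ (k + 1 + 1) * (2 * a + 1) - 1 =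
      2 ^ 0 * (2 * (2 ^ (k + 1) * (2 * a + 1) - 1) + 1) := by
    have h1 : 2 ^ (k + 1 + 1) * (2 * a + 1) = 4 * (2 ^ k * (2 * a + 1)) := by ring
    have h2 : 2 ^ (k + 1) * (2 * a + 1) = 2 * (2 ^ k * (2 * a + 1)) := by ring
    have hpos : 0 < 2 ^ k * (2 * a + 1) := by positivity
    omega
  rw [label_of_eq E I J1 J2 K d u _ _ e]
  simp only [lab, mu_chain, Nat.zero_add]

theorem label_b (hEI : ∀ x, E x → ¬ I x) (hKE : ∀ x, E x → K x = 0) (hKI : ∀ x, I x → K x = 2)
    (h : Perm A) (hK : ∀ x, K (h x) = K x) (u : ℕ → A) (q : ℕ) :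
    label E I J1 J2 K d (b E I h u) q =
      FB E I J1 J2 h (label E I J1 J2 K d u q) (label E I J1 J2 K d u (q - 1))
        (label E I J1 J2 K d u (q - 2)) (label E I J1 J2 K d u (q - 3)) := by
  rcases Nat.eq_zero_or_pos q with rfl | hq
  · simp [label_zero, FB]
  obtain ⟨k, a, rfl⟩ := exists_dec q (by omega)
  rcases k with _ | _ | k
  · -- level 0
    rw [label_pow, label_pow]
    rcases Nat.eq_zero_or_pos a with rfl | ha
    · simp [lab, FB, mu_zero, label_zero]
    · obtain ⟨k, a', rfl⟩ := exists_dec a (by omega)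
      have e1 : 2 ^ 0 * (2 * (2 ^ k * (2 * a' + 1)) + 1) - 1 = 2 ^ (k + 1) * (2 * a' + 1) := by
        rw [pow_succ, pow_zero]; ring_nf; omega
      rw [label_of_eq E I J1 J2 K d u (k + 1) a' e1]
      rcases k with _ | k
      · have e3 : 2 ^ 0 * (2 * a' + 1) = 2 * a' + 1 := by omega
        have e4 : mu E I J1 J2 (b E I h u) 0 (2 * a' + 1) = mu E I J1 J2 u 0 (2 * a' + 1) := by
          by_contra hne
          obtain ⟨j, _, _, _, h4⟩ := mu_b hEI h u _ _ hne
          have := h4 (by omega)
          omega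
        simp [lab, FB, e4]
      · have e2 : 2 ^ 0 * (2 * (2 ^ (k + 1) * (2 * a' + 1)) + 1) - 2 =
            2 ^ (k + 1 + 1) * (2 * a' + 1) - 1 := by
          have : 2 ^ (k + 1 + 1) * (2 * a' + 1) = 2 * (2 ^ (k + 1) * (2 * a' + 1)) := by ring
          omega
        rw [e2, label_left]
        have hkind : 3 ≤ (lab E I J1 J2 K d u (k + 1 + 1) a').kind := by
          simp only [lab]
          split_ifs <;> decide
        have hk0 : (lab E I J1 J2 K d u 0 (2 ^ (k + 1) * (2 * a' + 1))).kind = 1 := rfl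
        have hk1 : ¬ (3 : Fin 5) ≤ 1 := by decide
        simp only [FB, hkind, hk0, hk1, false_and, if_false, true_and]
        by_cases hc : (∀ i < k, E (u i)) ∧ I (u k)
        · rw [if_pos hc.1, if_pos ((fR_eq_SI hEI).2 hc.2)]
          have e5 : mu E I J1 J2 (b E I h u) (k + 1 + 1) a' = mu E I J1 J2 u (k + 1 + 1) a' := by
            by_contra hne
            obtain ⟨j, h1, h2, h3, _⟩ := mu_b hEI h u _ _ hne
            exact hEI _ (h1 k (by omega)) hc.2
          have e6 : b E I h u (k + 1) = h (u (k + 1)) := by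
            rw [b_coord hEI, if_pos hc]
          simp only [lab, mu_pow, mu_odd, Nat.zero_add, e5, e6, hKI _ hc.2]
          simp [mask]
        · have e5 : mu E I J1 J2 (b E I h u) (k + 1) (2 * a' + 1) =
              mu E I J1 J2 u (k + 1) (2 * a' + 1) := by
            by_contra hne
            obtain ⟨j, h1, h2, _, h4⟩ := mu_b hEI h u _ _ hne
            have hj : j = k := by have := h4 (by omega); omega
            subst hj
            exact hc ⟨h1, h2⟩
          rw [if_neg]
          · simp only [lab, mu_pow, Nat.zero_add, e5]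
          · split_ifs with h1
            · rw [fR_eq_SI hEI]
              exact fun h2 => hc ⟨h1, h2⟩
            · simp
  · -- level 1
    rw [label_pow, label_pow]
    simp [lab, FB, b_coord_zero]
  · -- level at least 2
    rw [label_pow, label_pow, label_left]
    have hkind : 3 ≤ (lab E I J1 J2 K d u (k + 1 + 1) a).kind := by
      simp only [lab]
      split_ifs <;> decide
    have hkind1 : (lab E I J1 J2 K d u (k + 1 + 1) a).kind ≠ 1 := by
      simp only [lab]
      split_ifs <;> decide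
    have hKb : ∀ i, K (b E I h u i) = K (u i) := by
      intro i
      rcases i with _ | i
      · rw [b_coord_zero]
      · rw [b_coord hEI]
        split_ifs
        · exact hK _
        · rfl
    have hmask : mask (K (u k)) (mu E I J1 J2 (b E I h u) (k + 2) a) =
        mask (K (u k)) (mu E I J1 J2 u (k + 2) a) := by
      by_contra hne
      have hne2 : mu E I J1 J2 (b E I h u) (k + 2) a ≠ mu E I J1 J2 u (k + 2) a := by
        intro he
        rw [he] at hne
        exact hne rfl
      obtain ⟨j, h1, h2, h3, _⟩ := mu_b hEI h u _ _ hne2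
      apply hne
      rw [hKE _ (h1 k (by omega))]
      rfl
    simp only [FB, hkind, hkind1, true_and, false_and, if_false]
    by_cases hc : (∀ i < k, E (u i)) ∧ I (u k)
    · rw [if_pos hc.1, if_pos ((fR_eq_SI hEI).2 hc.2)]
      have e6 : b E I h u (k + 1) = h (u (k + 1)) := by
        rw [b_coord hEI, if_pos hc]
      simp only [lab, e6, hKb, hmask]
    · have e6 : b E I h u (k + 1) = u (k + 1) := by
        rw [b_coord hEI, if_neg hc]
      rw [if_neg]
      · simp only [lab, e6, hKb, hmask]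
      · split_ifs with h1
        · rw [fR_eq_SI hEI]
          exact fun h2 => hc ⟨h1, h2⟩
        · simp

theorem mask_swap1 (k : Fin 3) (m : Sg) (h : k ≠ 2) :
    mask (1 - k) m = if k = 0 then (m.1, 0) else (0, 0) := by
  fin_cases k
  · simp [mask]
  · simp [mask]
  · exact absurd rfl h

theorem mask_swap2 (k : Fin 3) (m : Sg) (h : k ≠ 0) :
    mask (0 - k) m = if k = 1 then ((mask k m).1, m.2) else ((mask k m).1, 0) := by
  fin_cases k
  · exact absurd rfl h
  · have : (0 - 1 : Fin 3) = 2 := by decide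
    simp [mask, this]
  · have : (0 - 2 : Fin 3) = 1 := by decide
    simp [mask, this]

theorem label_c {κ : Perm A} (hκE : ∀ x, E (κ x) ↔ E x) (hκ2 : ∀ x, κ (κ x) = x)
    (hκI : ∀ x, I (κ x) ↔ I x) (hκJ1 : ∀ x, J1 (κ x) ↔ J1 x) (hκJ2 : ∀ x, J2 (κ x) ↔ J2 x)
    (hJ1 : ∀ x, J1 x → ¬ E x ∧ ¬ I x) (hJ2 : ∀ x, J2 x → ¬ E x ∧ ¬ I x ∧ ¬ J1 x)
    (hK0 : ∀ x, ¬ J1 x → ¬ J2 x → K (κ x) = K x)
    (hK1 : ∀ x, J1 x → K (κ x) = 1 - K x ∧ K x ≠ 2)
    (hK2 : ∀ x, J2 x → K (κ x) = 0 - K x ∧ K x ≠ 0) (u : ℕ → A) (q : ℕ) :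
    label E I J1 J2 K d (c hκE hκ2 u) q =
      FC κ (label E I J1 J2 K d u q) (label E I J1 J2 K d u (q - 1))
        (label E I J1 J2 K d u (q - 2)) (label E I J1 J2 K d u (q - 3)) := by
  rcases Nat.eq_zero_or_pos q with rfl | hq
  · simp [label_zero, FC]
  obtain ⟨k, a, rfl⟩ := exists_dec q (by omega)
  rcases k with _ | _ | k
  · -- level 0
    rw [label_pow, label_pow]
    simp [lab, FC, mu_c hκE hκ2 hκI hκJ1 hκJ2]
  · -- level 1
    rw [label_pow, label_pow]
    have e : c hκE hκ2 u 0 = κ (u 0) := rfl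
    simp [lab, FC, e]
  · -- level at least 2
    rw [label_pow, label_pow, label_left]
    have hkind : 3 ≤ (lab E I J1 J2 K d u (k + 1 + 1) a).kind := by
      simp only [lab]
      split_ifs <;> decide
    have hkind1 : (lab E I J1 J2 K d u (k + 1 + 1) a).kind ≠ 2 := by
      simp only [lab]
      split_ifs <;> decide
    simp only [FC, hkind, hkind1, if_true, if_false]
    simp only [lab, c_coord, mu_c hκE hκ2 hκI hκJ1 hκJ2]
    by_cases hall : ∀ i < k, E (u i)
    · have hall' : (∀ i < k + 1, E (u i)) ↔ E (u k) := by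
        constructor
        · intro hh
          exact hh k (by omega)
        · intro hh i hi
          rcases Nat.lt_or_ge i k with h1 | h1
          · exact hall i h1
          · have : i = k := by omega
            rw [this]
            exact hh
      simp only [hall', if_pos hall]
      by_cases h1 : E (u k)
      · have hJ1' : ¬ J1 (u k) := fun h => (hJ1 _ h).1 h1
        have hJ2' : ¬ J2 (u k) := fun h => (hJ2 _ h).1 h1
        simp [fR, h1, hK0 _ hJ1' hJ2']
      · by_cases h2 : I (u k)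
        · have hJ1' : ¬ J1 (u k) := fun h => (hJ1 _ h).2 h2
          have hJ2' : ¬ J2 (u k) := fun h => (hJ2 _ h).2.1 h2
          simp [fR, h1, h2, hK0 _ hJ1' hJ2']
        · by_cases h3 : J1 (u k)
          · obtain ⟨e1, e2⟩ := hK1 _ h3
            simp only [fR, h1, h2, h3, if_true, if_false, e1, mask_swap1 _ _ e2]
            simp
          · by_cases h4 : J2 (u k)
            · obtain ⟨e1, e2⟩ := hK2 _ h4
              simp only [fR, h1, h2, h3, h4, if_true, if_false, e1, mask_swap2 _ _ e2]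
              simp
            · simp [fR, h1, h2, h3, h4, hK0 _ h3 h4]
    · have hall' : ¬ (∀ i < k + 1, E (u i)) := by
        intro hh
        exact hall (fun i hi => hh i (by omega))
      simp only [if_neg hall, if_neg hall']
      simp

/-- The labels determine the word. -/
theorem label_inj {u v : ℕ → A}
    (h : ∀ q, label E I J1 J2 K d u q = label E I J1 J2 K d v q) : u = v := by
  funext k
  have h1 := h (2 ^ (k + 1) * (2 * 0 + 1))
  rw [label_pow, label_pow] at h1
  rcases k with _ | k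
  · exact congrArg Lab.x h1
  · exact congrArg Lab.x h1

end Defs

end E59
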