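import Mathlib

set_option autoImplicit false

/-! Permutations of one-sided infinite words over an alphabet `A`:
first-letter permutations, diagonal (first-letter preserving) permutations,
and the two families of directed permutations used in the construction. -/

namespace E59

open Equiv

variable {A : Type}

/-- Put a letter in front of an infinite word. -/
def cns (x : A) (u : ℕ → A) : ℕ → A
  | 0 => x
  | n + 1 => u n

/-- Remove the first letter. -/
def tl (u : ℕ → A) : ℕ → A := fun n => u (n + 1)

@[simp] theorem cns_zero (x : A) (u : ℕ → A) : cns x u 0 = x := rfl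
@[simp] theorem cns_succ (x : A) (u : ℕ → A) (n : ℕ) : cns x u (n + 1) = u n := rfl
@[simp] theorem tl_apply (u : ℕ → A) (n : ℕ) : tl u n = u (n + 1) := rfl
@[simp] theorem tl_cns (x : A) (u : ℕ → A) : tl (cns x u) = u := rfl

@[simp] theorem cns_tl (u : ℕ → A) : cns (u 0) (tl u) = u := by
  funext n; cases n <;> rfl

theorem ext_word {u v : ℕ → A} (h0 : u 0 = v 0) (h1 : tl u = tl v) : u = v := by
  rw [← cns_tl u, ← cns_tl v, h0, h1]

/-- Diagonal permutation: keeps the first letter `x` and applies `s x` to the tail. -/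
def D : (A → Perm (ℕ → A)) →* Perm (ℕ → A) where
  toFun s :=
    { toFun := fun u => cns (u 0) (s (u 0) (tl u))
      invFun := fun u => cns (u 0) ((s (u 0))⁻¹ (tl u))
      left_inv := fun u => by simp
      right_inv := fun u => by simp }
  map_one' := by
    ext u : 1
    simp
  map_mul' s t := by
    ext u : 1
    simp

theorem D_apply (s : A → Perm (ℕ → A)) (u : ℕ → A) :
    D s u = cns (u 0) (s (u 0) (tl u)) := rfl

/-- Permutation of the first letter. -/
def R : Perm A →* Perm (ℕ → A) where
  toFun r :=
    { toFun := fun u => cns (r (u 0)) (tl u)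
      invFun := fun u => cns (r⁻¹ (u 0)) (tl u)
      left_inv := fun u => by simp
      right_inv := fun u => by simp }
  map_one' := by
    ext u : 1
    simp
  map_mul' s t := by
    ext u : 1
    simp

theorem R_apply (r : Perm A) (u : ℕ → A) : R r u = cns (r (u 0)) (tl u) := rfl

theorem D_mul_R (s : A → Perm (ℕ → A)) (r : Perm A) :
    D s * R r = R r * D (fun x => s (r x)) := by
  ext u : 1
  simp [D_apply, R_apply]

theorem R_mul_D_mul_R_inv (s : A → Perm (ℕ → A)) (r : Perm A) :
    R r * D s * (R r)⁻¹ = D (fun x => s (r⁻¹ x)) := by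
  rw [mul_inv_eq_iff_eq_mul, D_mul_R]
  simp

section Directed

variable (E I : A → Prop) [DecidablePred E] [DecidablePred I]

/-- Coordinates of the directed permutation `b h`. -/
def brun (h : Perm A) : ℕ → (ℕ → A) → A
  | 0, u => u 0
  | k + 1, u => if E (u 0) then brun h k (tl u) else if I (u 0) then (R h (tl u)) k else u (k + 1)

def bfun (h : Perm A) (u : ℕ → A) : ℕ → A := fun k => brun E I h k u

theorem bfun_eq (h : Perm A) (u : ℕ → A) :
    bfun E I h u = cns (u 0)
      (if E (u 0) then bfun E I h (tl u) else if I (u 0) then R h (tl u) else tl u) := by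
  funext k
  cases k with
  | zero => rfl
  | succ k =>
    simp only [bfun, brun, cns_succ]
    split_ifs <;> rfl

variable {E I} in
theorem bfun_E (h : Perm A) {u : ℕ → A} (h1 : E (u 0)) :
    bfun E I h u = cns (u 0) (bfun E I h (tl u)) := by
  rw [bfun_eq, if_pos h1]

variable {E I} in
theorem bfun_I (h : Perm A) {u : ℕ → A} (h1 : ¬ E (u 0)) (h2 : I (u 0)) :
    bfun E I h u = cns (u 0) (R h (tl u)) := by
  rw [bfun_eq, if_neg h1, if_pos h2]

variable {E I} in
theorem bfun_N (h : Perm A) {u : ℕ → A} (h1 : ¬ E (u 0)) (h2 : ¬ I (u 0)) :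
    bfun E I h u = u := by
  rw [bfun_eq, if_neg h1, if_neg h2, cns_tl]

theorem bfun_bfun (h h' : Perm A) (k : ℕ) : ∀ u : ℕ → A,
    bfun E I h (bfun E I h' u) k = bfun E I (h * h') u k := by
  induction k with
  | zero => intro u; rfl
  | succ k ih =>
    intro u
    by_cases h1 : E (u 0)
    · rw [bfun_E h' h1, bfun_E (u := cns _ _) h (by simpa using h1), bfun_E (h * h') h1]
      exact ih (tl u)
    · by_cases h2 : I (u 0)
      · rw [bfun_I h' h1 h2, bfun_I (u := cns _ _) h (by simpa using h1) (by simpa using h2),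
          bfun_I (h * h') h1 h2, map_mul]
        rfl
      · rw [bfun_N h' h1 h2, bfun_N h h1 h2, bfun_N (h * h') h1 h2]

theorem bfun_one (k : ℕ) : ∀ u : ℕ → A, bfun E I 1 u k = u k := by
  induction k with
  | zero => intro u; rfl
  | succ k ih =>
    intro u
    by_cases h1 : E (u 0)
    · rw [bfun_E 1 h1]
      exact ih (tl u)
    · by_cases h2 : I (u 0)
      · rw [bfun_I 1 h1 h2, map_one]
        rfl
      · rw [bfun_N 1 h1 h2]

/-- The directed permutations `b h`. -/
def b : Perm A →* Perm (ℕ → A) where
  toFun h :=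
    { toFun := bfun E I h
      invFun := bfun E I h⁻¹
      left_inv := fun u => by
        funext k
        rw [bfun_bfun, inv_mul_cancel, bfun_one]
      right_inv := fun u => by
        funext k
        rw [bfun_bfun, mul_inv_cancel, bfun_one] }
  map_one' := by
    ext u : 1
    funext k
    exact bfun_one E I k u
  map_mul' s t := by
    ext u : 1
    funext k
    exact (bfun_bfun E I s t k u).symm

theorem b_apply (h : Perm A) (u : ℕ → A) : b E I h u = bfun E I h u := rfl

/-- Sections of `b h`. -/
def bs (h : Perm A) (x : A) : Perm (ℕ → A) :=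
  if E x then b E I h else if I x then R h else 1

theorem b_eq (h : Perm A) : b E I h = D (bs E I h) := by
  ext u : 1
  rw [b_apply, bfun_eq, D_apply]
  congr 1
  simp only [bs]
  split_ifs <;> rfl

/-- Coordinates of the directed permutation `c`. -/
def crun (κ : Perm A) : ℕ → (ℕ → A) → A
  | 0, u => κ (u 0)
  | k + 1, u => if E (u 0) then crun κ k (tl u) else u (k + 1)

def cfun (κ : Perm A) (u : ℕ → A) : ℕ → A := fun k => crun E κ k u

theorem cfun_eq (κ : Perm A) (u : ℕ → A) :
    cfun E κ u = cns (κ (u 0)) (if E (u 0) then cfun E κ (tl u) else tl u) := by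
  funext k
  cases k with
  | zero => rfl
  | succ k =>
    simp only [cfun, crun, cns_succ]
    split_ifs <;> rfl

variable {E I}
variable {κ : Perm A}

theorem cfun_E {u : ℕ → A} (h1 : E (u 0)) :
    cfun E κ u = cns (κ (u 0)) (cfun E κ (tl u)) := by
  rw [cfun_eq, if_pos h1]

theorem cfun_N {u : ℕ → A} (h1 : ¬ E (u 0)) :
    cfun E κ u = cns (κ (u 0)) (tl u) := by
  rw [cfun_eq, if_neg h1]

theorem cfun_cfun (hκE : ∀ x, E (κ x) ↔ E x) (hκ2 : ∀ x, κ (κ x) = x) (k : ℕ) :
    ∀ u : ℕ → A, cfun E κ (cfun E κ u) k = u k := by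
  induction k with
  | zero => intro u; exact hκ2 (u 0)
  | succ k ih =>
    intro u
    by_cases h1 : E (u 0)
    · rw [cfun_E h1, cfun_E (u := cns _ _) (by simpa [hκE] using h1)]
      exact ih (tl u)
    · rw [cfun_N h1, cfun_N (u := cns _ _) (by simpa [hκE] using h1)]
      rfl

/-- The directed involution `c`. -/
def c (hκE : ∀ x, E (κ x) ↔ E x) (hκ2 : ∀ x, κ (κ x) = x) : Perm (ℕ → A) where
  toFun := cfun E κ
  invFun := cfun E κ
  left_inv := fun u => funext fun k => cfun_cfun hκE hκ2 k u
  right_inv := fun u => funext fun k => cfun_cfun hκE hκ2 k u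

variable (hκE : ∀ x, E (κ x) ↔ E x) (hκ2 : ∀ x, κ (κ x) = x)

theorem c_apply (u : ℕ → A) : c hκE hκ2 u = cfun E κ u := rfl

theorem c_inv : (c hκE hκ2)⁻¹ = c hκE hκ2 := rfl

theorem c_mul_c : c hκE hκ2 * c hκE hκ2 = 1 := by
  ext u : 1
  funext k
  exact cfun_cfun hκE hκ2 k u

/-- The copy of `g` on words whose first letter lies in `E`. -/
def T (F : A → Prop) [DecidablePred F] : Perm (ℕ → A) →* Perm (ℕ → A) where
  toFun g := D (fun x => if F x then g else 1)
  map_one' := by
    have : (fun x : A => if F x then (1 : Perm (ℕ → A)) else 1) = 1 := by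
      funext x; simp
    rw [this, map_one]
  map_mul' g g' := by
    rw [← map_mul]
    congr 1
    funext x
    simp only [Pi.mul_apply]
    split_ifs <;> simp

theorem T_apply (F : A → Prop) [DecidablePred F] (g : Perm (ℕ → A)) :
    T F g = D (fun x => if F x then g else 1) := rfl

theorem c_eq : c hκE hκ2 = R κ * T E (c hκE hκ2) := by
  ext u : 1
  rw [c_apply, cfun_eq, Perm.mul_apply, T_apply, D_apply, R_apply]
  simp only [cns_zero, tl_cns]
  split_ifs <;> rfl

end Directed

end E59
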